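import Pool.Agent.W262.G3.Fin2
import Pool.Agent.W623.SecG.Loc2
import Pool.Agent.TH213.SEL.Bir2
import Pool.Agent.TH213.SEL.LocGlob
import Pool.Agent.TH213.SEL.Fin24

/-!
# The birational section conjecture for almost all quadratic twists of a hyperelliptic curve

Let `N ≥ 6` be even and let `e_1, …, e_N` be different integers.  For squarefree `d` let `C_d` be the
curve `d y² = ∏ (x - e_i)`, of genus `(N - 2) / 2 ≥ 2`, with the rational points `(e_i, 0)`.  Suppose
that for every `i` four of the numbers `1 / (e_l - e_i)`, `l ≠ i`, form an arithmetic progression (and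
the condition `CrossRatio` below).  This is so for `0, 6, 10, 15, 30, -30`.

We prove: for all squarefree `d`, `|d| ≤ X`, with at most `C X (log X)^(-1/5)` exceptions, every
section of `Gal(Ω/F) → G_ℚ`, `F` the function field of `C_d` or of any curve with a nonconstant map to
`C_d`, which is geometric over the completions of `ℚ` at the finite places comes from exactly one
rational point, which lies over one of the points `(e_i, 0)`.  By the theorem of Koenigsmann on
sections over local fields all sections are geometric over the completions.  We use that the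
Tate-Shafarevich group of one elliptic curve over `ℚ` of conductor 24 is killed by a positive integer;
this is a theorem of Kolyvagin, the `L`-series of the curve does not vanish at `1`.

Proof.  By a theorem of the starting library (helper623, helper262), for almost all `d` every section
has modulo 2 the type of one branch point `P_i = (e_i, 0)`: the functions
`(x - e_l) (x - e_m) (e_i - e_l) (e_i - e_m)`, `l, m ≠ i`, have square roots which are fixed by the
section.  For four indices `l` as above these square roots give a point, over the fixed field of the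
section, of the elliptic curve `w² = u (u - 1) (u - 2) (u - 3)`, which does not depend on `d` or `i`;
it is isomorphic to `E : Y² = X³ - 351 X + 1890`.  By Fermat's theorem on four squares in arithmetic
progression `E(ℚ)` is finite.  So by the theory of helper954 the values of `u` at all the local points
are one rational number or `∞`.  If it were a rational number `u₀`, then the numbers `u₀ (u₀ - j)`
would be squares in all completions, so squares, and by Fermat's theorem again one of the `u₀ - j` is
zero; the local points then lie over a branch point `P_l` with `l ≠ i`, and this contradicts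
`CrossRatio`.  So `x - e_i` vanishes at all the local points, and then a limit of the local places
over an ultrafilter (again the theory of helper954) is a rational place from which the section comes.
-/

set_option autoImplicit false

open IsDedekindDomain NumberField Pool.Agent.W620.SC Pool.Agent.TH954

namespace Pool.Agent.Results.MP_8312c9_nt.BirationalSectionsOfTwists

/-- The section `s` is geometric over the completions of `k` at all finite places. -/
def LocallyGeometric {k F Ω B : Type} [Field k] [NumberField k] [Field F] [Field Ω] [Field B]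
    [Algebra F Ω] [Algebra k Ω] [Algebra k B] (s : GalSection k F Ω B) : Prop :=
  ∀ v : HeightOneSpectrum (𝓞 k),
    s.GeometricOver (v.adicCompletion k) (AlgebraicClosure (v.adicCompletion k))

/-- Let `F` be an extension of `ℚ` with elements `x`, `y`, `d y² = ∏ (x - e_i)`, where `x` is
transcendental and `F` is algebraic over `ℚ(x)`, that is, the function field of the curve
`d y² = ∏ (x - e_i)` or of a covering of it, and let `Ω` be an algebraic closure of `F`.  Every
section of `Gal(Ω/F) → G_ℚ` which is geometric over the completions of `ℚ` at the finite places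
arises from exactly one rational point, and `x = e_i` there for some `i`. -/
def SectionsAreGeometric {K : Type} [Fintype K] (e : K → ℤ) (d : ℤ) : Prop :=
  ∀ (F Ω B : Type) [Field F] [Field Ω] [Field B] [Algebra ℚ F] [Algebra F Ω] [Algebra ℚ Ω]
    [Algebra ℚ B] [IsScalarTower ℚ F Ω] [IsAlgClosure F Ω] [IsAlgClosure ℚ B] (x y : F),
    Transcendental ℚ x → Algebra.IsAlgebraic (IntermediateField.adjoin ℚ {x}) F →
    (d : F) * y ^ 2 = ∏ i, (x - (e i : F)) →
    ∀ s : GalSection ℚ F Ω B, LocallyGeometric s →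
      (∃! O : ValuationSubring F, s.ArisesFrom O) ∧
        ∃ i, ∀ O : ValuationSubring F, s.ArisesFrom O → (x - algebraMap ℚ F (e i))⁻¹ ∉ O

/-- The condition on the branch points: for `i ≠ k` there are `l, l'` different from `i` and `k`, such
that the integer `(e_i - e_l) (e_i - e_l') (e_k - e_l) (e_k - e_l')` is not a square. -/
def CrossRatio {K : Type} (e : K → ℤ) : Prop :=
  ∀ i k, i ≠ k → ∃ l l', l ≠ i ∧ l ≠ k ∧ l' ≠ i ∧ l' ≠ k ∧
    ¬ IsSquare ((e i - e l) * (e i - e l') * ((e k - e l) * (e k - e l')))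

/-- For every `i`, four of the numbers `1 / (e_l - e_i)`, `l ≠ i`, form an arithmetic progression. -/
def Progressions {K : Type} (e : K → ℤ) : Prop :=
  ∀ i, ∃ (l : Fin 4 → K) (z δ : ℚ), δ ≠ 0 ∧ (∀ j, l j ≠ i) ∧
    ∀ j : Fin 4, ((e (l j) : ℚ) - e i)⁻¹ = z + (j : ℕ) * δ

/-- the six branch points of the example -/
def ex : Fin 6 → ℤ := ![0, 6, 10, 15, 30, -30]

theorem sections_geometric (M₀ : ℕ) (hM₀ : 1 ≤ M₀)
    (hSha : ShaKilledBy (Pool.Agent.TH942.sw (-351) (1890 : ℚ)) M₀)
    {K : Type} [Fintype K] {e : K → ℤ} (he : Function.Injective e)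
    (hCR : CrossRatio e) (hPr : Progressions e) {d : ℤ}
    (hbad : ¬ Pool.Agent.W623.SecG.Bad2.{0, 0} e d) : SectionsAreGeometric e d := by
  classical
  intro F Ω B _ _ _ _ _ _ _ _ _ _ x y hx halgx hxy s hs
  have hcl : IsAlgClosed Ω := IsAlgClosure.isAlgClosed F
  have halg : Algebra.IsAlgebraic F Ω := IsAlgClosure.isAlgebraic
  set G : GSection ℚ F Ω ∅ :=
    Pool.Agent.TH213.SEL.ofGal (AlgHom.id F Ω) Pool.Agent.TH213.SEL.id_range s with hG
  obtain ⟨i, hi⟩ : ∃ i, Pool.Agent.W623.SecG.At G x e i := by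
    by_contra hno
    push Not at hno
    exact hbad ⟨F, Ω, inferInstance, inferInstance, inferInstance, inferInstance, inferInstance,
      inferInstance, hcl, halg, ∅, G, x, y, fun O hO => absurd hO (Set.notMem_empty _), hx, hxy,
      hno⟩
  have hE : Function.Injective (fun k : K => (e k : ℚ)) := by
    intro a b h
    have h' : (e a : ℚ) = (e b : ℚ) := h
    exact he (by exact_mod_cast h')
  obtain ⟨l, z, δ, hδ, hl, hAP⟩ := hPr i
  obtain ⟨O, hO1, hO2, hO3⟩ := Pool.Agent.TH213.SEL.bir_main2 (K := K)
    Pool.Agent.TH213.SEL.sq_rat Pool.Agent.TH213.SEL.ferm_rat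
    Pool.Agent.TH213.SEL.finite24 hM₀ hSha s hs ⟨x, hx, halgx⟩ (fun k => (e k : ℚ)) hE x
    (fun c hc => hx (by rw [hc]; exact isAlgebraic_algebraMap c)) i (by
      intro m m' h1 h2
      obtain ⟨γ, h3, h4⟩ := hi m m' h1 h2
      refine ⟨γ, h3, ?_⟩
      rw [h4]
      congr 1
      simp only [map_mul, map_sub, map_intCast]
      push_cast
      ring) (by
      intro j hj
      obtain ⟨m, m', h1, h2, h3, h4, h5⟩ := hCR i j (Ne.symm hj)
      refine ⟨m, m', h1, h2, h3, h4, fun h6 => h5 ?_⟩
      have h7 : ((e i : ℚ) - e m) * (e i - e m') * ((e j - e m) * (e j - e m')) =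
          (((e i - e m) * (e i - e m') * ((e j - e m) * (e j - e m')) : ℤ) : ℚ) := by
        push_cast
        ring
      beta_reduce at h6
      rw [h7, Rat.isSquare_intCast_iff] at h6
      exact h6) l hl z δ hδ hAP
  exact ⟨⟨O, hO2, fun O' h => hO3 O' h⟩, i, fun O' h => by rw [hO3 O' h]; exact hO1⟩

lemma not_sq_mod {N : ℤ} (h : N % 7 = 3 ∨ N % 7 = 5 ∨ N % 7 = 6) : ¬ IsSquare N := by
  rintro ⟨r, rfl⟩
  have h1 : r % 7 = 0 ∨ r % 7 = 1 ∨ r % 7 = 2 ∨ r % 7 = 3 ∨ r % 7 = 4 ∨ r % 7 = 5 ∨ r % 7 = 6 := by
    omega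
  rcases h1 with h1 | h1 | h1 | h1 | h1 | h1 | h1 <;>
    rw [Int.mul_emod, h1] at h <;> revert h <;> decide

/-- witnesses for `CrossRatio` -/
def wit : Fin 6 → Fin 6 → Fin 6 × Fin 6 :=
  ![![(0, 0), (2, 3), (1, 3), (1, 2), (1, 5), (1, 2)], ![(2, 3), (0, 0), (0, 3), (0, 2), (0, 2), (0, 2)],
    ![(1, 3), (0, 3), (0, 0), (0, 1), (0, 3), (0, 1)], ![(1, 2), (0, 2), (0, 1), (0, 0), (0, 1), (0, 4)],
    ![(1, 5), (0, 2), (0, 3), (0, 1), (0, 0), (0, 1)], ![(1, 2), (0, 2), (0, 1), (0, 4), (0, 1), (0, 0)]]

lemma crossRatio_ex : CrossRatio ex := by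
  have h : ∀ i k : Fin 6, i ≠ k → (wit i k).1 ≠ i ∧ (wit i k).1 ≠ k ∧ (wit i k).2 ≠ i ∧
      (wit i k).2 ≠ k ∧
      (((ex i - ex (wit i k).1) * (ex i - ex (wit i k).2) *
        ((ex k - ex (wit i k).1) * (ex k - ex (wit i k).2))) % 7 = 3 ∨
      ((ex i - ex (wit i k).1) * (ex i - ex (wit i k).2) *
        ((ex k - ex (wit i k).1) * (ex k - ex (wit i k).2))) % 7 = 5 ∨
      ((ex i - ex (wit i k).1) * (ex i - ex (wit i k).2) *
        ((ex k - ex (wit i k).1) * (ex k - ex (wit i k).2))) % 7 = 6) := by
    decide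
  intro i k hik
  obtain ⟨h1, h2, h3, h4, h5⟩ := h i k hik
  exact ⟨_, _, h1, h2, h3, h4, not_sq_mod h5⟩

lemma progressions_ex : Progressions ex := by
  intro i
  fin_cases i
  · refine ⟨![5, 4, 2, 1], -1 / 30, 1 / 15, by norm_num, by decide, fun j => ?_⟩
    fin_cases j <;> simp [ex] <;> norm_num
  · refine ⟨![0, 5, 3, 2], -1 / 6, 5 / 36, by norm_num, by decide, fun j => ?_⟩
    fin_cases j <;> simp [ex] <;> norm_num
  · refine ⟨![1, 0, 4, 3], -1 / 4, 3 / 20, by norm_num, by decide, fun j => ?_⟩
    fin_cases j <;> simp [ex] <;> norm_num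
  · refine ⟨![2, 1, 5, 4], -1 / 5, 4 / 45, by norm_num, by decide, fun j => ?_⟩
    fin_cases j <;> simp [ex] <;> norm_num
  · refine ⟨![3, 2, 0, 5], -1 / 15, 1 / 60, by norm_num, by decide, fun j => ?_⟩
    fin_cases j <;> simp [ex] <;> norm_num
  · refine ⟨![4, 3, 1, 0], 1 / 60, 1 / 180, by norm_num, by decide, fun j => ?_⟩
    fin_cases j <;> simp [ex] <;> norm_num

theorem result (M₀ : ℕ) (hM₀ : 1 ≤ M₀)
    (hSha : ShaKilledBy (Pool.Agent.TH942.sw (-351) (1890 : ℚ)) M₀) :
    (∀ (K : Type) [Fintype K] (e : K → ℤ), Function.Injective e → Even (Fintype.card K) →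
      6 ≤ Fintype.card K → CrossRatio e → Progressions e → ∃ C : ℝ, ∀ X : ℕ, 2 ≤ X →
        ({d : ℤ | d.natAbs ≤ X ∧ Squarefree d ∧ ¬ SectionsAreGeometric e d}.ncard : ℝ) ≤
          C * X * (Real.log X) ^ (-(1 / 5) : ℝ)) ∧
    (Function.Injective ex ∧ CrossRatio ex ∧ Progressions ex) := by
  refine ⟨?_, by decide, crossRatio_ex, progressions_ex⟩
  · intro K _ e he hev hK hCR hPr
    classical
    obtain ⟨C, hC⟩ := Pool.Agent.W262.G3.fin2.{0, 0} Pool.Agent.W623.SecG.secloc2
      Pool.Agent.W623.SecE.secglob K e he hev hK hCR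
    refine ⟨C, fun X hX => le_trans ?_ (hC X hX)⟩
    have hfin : {d : ℤ | d.natAbs ≤ X ∧ Squarefree d ∧
        Pool.Agent.W623.SecG.Bad2.{0, 0} e d}.Finite := by
      refine (Finset.finite_toSet (Finset.Icc (-(X : ℤ)) X)).subset ?_
      rintro d ⟨hd1, -⟩
      rw [Finset.mem_coe, Finset.mem_Icc]
      omega
    have hsub : {d : ℤ | d.natAbs ≤ X ∧ Squarefree d ∧ ¬ SectionsAreGeometric e d} ⊆
        {d : ℤ | d.natAbs ≤ X ∧ Squarefree d ∧ Pool.Agent.W623.SecG.Bad2.{0, 0} e d} := by
      rintro d ⟨hd1, hd2, hd3⟩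
      refine ⟨hd1, hd2, ?_⟩
      by_contra hbad
      exact hd3 (sections_geometric M₀ hM₀ hSha he hCR hPr hbad)
    exact_mod_cast Set.ncard_le_ncard hsub hfin

end Pool.Agent.Results.MP_8312c9_nt.BirationalSectionsOfTwists
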