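import Mathlib

/-!
# The birational section conjecture and closed points of bounded degree

Let `K` be the function field of a curve `X` over a field `k` of characteristic zero, let
`Ω` be an algebraic closure of `K`, let `k̄` be the algebraic closure of `k` in `Ω` and let
`s : G_k → G_X = Gal(Ω/K)` be a section.  A *neighbourhood* of `s` is a finite extension `E` of `K`
inside the fixed field of `s(G_k)`; it is the function field of a curve `X_E` over `k`, a possibly
ramified cover of `X`, and `s` is a section for `X_E` too.  If `s` is geometric then every `X_E` has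
a rational point, and for `k` finitely generated over `ℚ` the converse is a well-known limit argument,
which uses Faltings' theorem.

We show that closed points of *bounded degree* suffice, where moreover the degree may be taken over an
infinite extension `k'` of `k`, such as the maximal abelian or the maximal solvable extension.

* (No assumption on `k` but characteristic zero, and `G_{k'}` infinite.)  `s` is geometric, in the sense
  of the frozen statement `S17615`, if and only if for some `D` every neighbourhood `X_E` of `s` has a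
  closed point of degree at most `D` over `k'` above a fixed finite set of closed points of `X`, the
  poles of some `c ∈ K`.
* The finite set may be dropped if some neighbourhood has only finitely many closed points of degree at
  most `D` over `k'`.

For `k' = k` finitely generated over `ℚ` the last condition holds for every `K`, every `s` and every `D`:
a curve over `k` has only finitely many closed points of degree at most `D` if its gonality is greater
than `2 D` (Faltings, Frey); some curve which covers `X_k̄` has gonality greater than `2 D`; the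
composita `E k̄` are cofinal among the finite extensions of `K k̄`, because `M s(G_k)` is an open
subgroup of `G_X` for each subgroup `M` of `Gal(Ω/K k̄)` which is open there and normal in `G_X`; and
the gonality does not decrease in covers.  This theorem about `k` is not proved here; in the second part
of `result` it is the hypothesis `FinitelyManyPlaces`.

The proof.  Places of `Ω` which are poles of `c` and which have at most `D` conjugates on large
neighbourhoods have an ultrafilter limit `W`; it is a place, because it is a pole of `c`, and the number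
of conjugates is lower semicontinuous, so that `W` has at most `D` conjugates on *every* `E k̄`.  As
`Ω` is the union of the composita `E k̄` (infinite Galois theory), `W` has at most `D` conjugates
under `s(N)`, where `N = G_{k'}`.  We prove F. K. Schmidt's theorem (`meetTrivially`): the decomposition
groups of distinct places of `Ω` over `k` meet trivially (weak approximation and Krasner's lemma over
the fixed field of a common element).  If `h ∈ N` moves `W`, then infinitely many elements of `N` lie in
finitely many cosets of the stabilizers of `W` and of its conjugate, so some `s(g) ≠ 1` fixes both,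
against Schmidt's theorem; so `W` is fixed by `s(N)`.  For `h ∈ G_k` the place `s(h)⁻¹ W` is fixed by
`s(h⁻¹ N h)`, which meets `s(N)`, so it is `W` by the same theorem.  So `W` is fixed by `s(G_k)`, and the
place of `K` below it has degree one, because its residue field is contained in `k̄` and in the field of
invariants of `G_k`.
-/

set_option autoImplicit false
set_option linter.unusedSectionVars false

namespace Pool.Agent.Results.MP_8312c9_nt.BoundedDegreePlaces

open IntermediateField

variable {k K : Type} [Field k] [CharZero k] [Field K] [Algebra k K]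

/-- `G_k`, the automorphism group of the algebraic closure `k̄` of `k` in `Ω = AlgebraicClosure K`. -/
abbrev Gk (k K : Type) [Field k] [Field K] [Algebra k K] : Type :=
  algebraicClosure k (AlgebraicClosure K) ≃ₐ[k] algebraicClosure k (AlgebraicClosure K)

/-- `G_X = Gal(Ω / K)` -/
abbrev GX (K : Type) [Field K] : Type := AlgebraicClosure K ≃ₐ[K] AlgebraicClosure K

/-- `s` is a section of `G_X → G_k`: it is continuous and `s(g)` restricts to `g` on `k̄`. -/
def IsSection (s : Gk k K →* GX K) : Prop :=
  Continuous s ∧ ∀ (g : Gk k K) (x : algebraicClosure k (AlgebraicClosure K)),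
    s g (x : AlgebraicClosure K) = ((g x : algebraicClosure k (AlgebraicClosure K)) :
      AlgebraicClosure K)

/-- `s` arises from a unique rational point: the conclusion of the frozen statement `S17615`, word for
word. -/
def Geometric (s : Gk k K →* GX K) : Prop :=
  ∃! O : ValuationSubring K,
    O ≠ ⊤ ∧ (∀ c : k, algebraMap k K c ∈ O) ∧
    (∀ a ∈ O, ∃ c : k, O.valuation (a - algebraMap k K c) < 1) ∧
    ∃ W : ValuationSubring (AlgebraicClosure K),
      W.comap (algebraMap K (AlgebraicClosure K)) = O ∧
      ∀ (g : Gk k K) (x : AlgebraicClosure K), (s g x ∈ W ↔ x ∈ W)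

/-- `E` is a neighbourhood of `s`: a finite extension of `K` inside the fixed field of `s(G_k)`, that
is, the function field of a cover `X_E → X` to which the section `s` lifts. -/
def IsNeighbourhood (s : Gk k K →* GX K) (E : IntermediateField K (AlgebraicClosure K)) : Prop :=
  FiniteDimensional K E ∧ E ≤ fixedField s.range

/-- The compositum `E k̄` inside `Ω`, the function field of `X_E` over `k̄`. -/
noncomputable def comp (k : Type) {K : Type} [Field k] [Field K] [Algebra k K]
    (E : IntermediateField K (AlgebraicClosure K)) : IntermediateField K (AlgebraicClosure K) :=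
  E ⊔ adjoin K ((algebraicClosure k (AlgebraicClosure K) :
    IntermediateField k (AlgebraicClosure K)) : Set (AlgebraicClosure K))

/-- `V` is a place of `Ω` over `k`: a valuation ring of `Ω` which contains `k` and is not `Ω`.  Its
traces on `E` and on `E k̄` are a closed point of `X_E` and one of the points over `k̄` above it. -/
def IsPlace (k : Type) {K : Type} [Field k] [Field K] [Algebra k K]
    (V : ValuationSubring (AlgebraicClosure K)) : Prop :=
  V ≠ ⊤ ∧ ∀ c : k, algebraMap k (AlgebraicClosure K) c ∈ V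

/-- The conjugate by `g⁻¹` of the place of `E k̄` below `V` (given by its valuation ring).  On `E k̄`,
where `E` is a neighbourhood of `s`, the automorphism `s(g)` is the identity of `E` and `g` on `k̄`,
the natural Galois action. -/
def conj (s : Gk k K →* GX K) (E : IntermediateField K (AlgebraicClosure K))
    (V : ValuationSubring (AlgebraicClosure K)) (g : Gk k K) : Set (AlgebraicClosure K) :=
  {x | x ∈ comp k E ∧ s g x ∈ V}

/-- The number of the `N`-conjugates of the place of `E k̄` below `V`, where `N` is a subgroup of `G_k`;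
that is, the degree over `k' = k̄ ^ N` of the closed point below `V` of the curve `X_E` over `k'`.  For
`N = G_k` it is the degree over `k` of the closed point of `X_E` below `V`. -/
noncomputable def degree (s : Gk k K →* GX K) (N : Subgroup (Gk k K))
    (E : IntermediateField K (AlgebraicClosure K)) (V : ValuationSubring (AlgebraicClosure K)) : ℕ∞ :=
  (Set.range fun g : N => conj s E V g).encard

/-- For every `D` some neighbourhood `E₀` of `s` has only finitely many closed points of degree at most
`D` over `k' = k̄ ^ N` (for `N = G_k` and `k` finitely generated over `ℚ` this is the theorem of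
Faltings and Frey; see the top of the file). -/
def FinitelyManyPlaces (s : Gk k K →* GX K) (N : Subgroup (Gk k K)) : Prop :=
  ∀ D : ℕ, ∃ E₀, IsNeighbourhood s E₀ ∧
    {A | ∃ V, IsPlace k V ∧ degree s N E₀ V ≤ D ∧ A = conj s E₀ V 1}.Finite

/-- The decomposition groups of two distinct places of `Ω` over `k` meet trivially (the theorem of
F. K. Schmidt). -/
def MeetTrivially (k K : Type) [Field k] [Field K] [Algebra k K] : Prop :=
  ∀ V V' : ValuationSubring (AlgebraicClosure K), IsPlace k V → IsPlace k V' → V ≠ V' →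
    ∀ σ : GX K, (∀ x, σ x ∈ V ↔ x ∈ V) → (∀ x, σ x ∈ V' ↔ x ∈ V') → σ = 1

variable {s : Gk k K →* GX K} {N : Subgroup (Gk k K)}

lemma fixed {E : IntermediateField K (AlgebraicClosure K)} (hE : E ≤ fixedField s.range)
    (g : Gk k K) {x : AlgebraicClosure K} (hx : x ∈ E) : s g x = x := by
  have := hE hx
  rw [mem_fixedField_iff] at this
  exact this (s g) ⟨g, rfl⟩

lemma comp_mono {E E' : IntermediateField K (AlgebraicClosure K)} (h : E ≤ E') :
    comp k E ≤ comp k E' := sup_le_sup_right h _

lemma one_conj (E : IntermediateField K (AlgebraicClosure K))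
    (V : ValuationSubring (AlgebraicClosure K)) :
    conj s E V 1 = {x | x ∈ comp k E ∧ x ∈ V} := by
  simp [conj]

lemma degree_mono {E E' : IntermediateField K (AlgebraicClosure K)} (h : E ≤ E')
    (V : ValuationSubring (AlgebraicClosure K)) : degree s N E V ≤ degree s N E' V := by
  have e : Set.range (fun g : N => conj s E V g) =
      (fun A : Set (AlgebraicClosure K) => A ∩ (comp k E : Set _)) ''
        Set.range (fun g : N => conj s E' V g) := by
    rw [← Set.range_comp]
    congr 1
    funext g
    ext x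
    constructor
    · rintro ⟨h1, h2⟩
      exact ⟨⟨comp_mono h h1, h2⟩, h1⟩
    · rintro ⟨⟨h1, h2⟩, h3⟩
      exact ⟨h3, h2⟩
  unfold degree
  rw [e]
  exact Set.encard_image_le _ _

instance : IsGalois k (algebraicClosure k (AlgebraicClosure K)) := by
  infer_instance

lemma exists_comp (hs : IsSection s) (x : AlgebraicClosure K) :
    ∃ E, IsNeighbourhood s E ∧ x ∈ comp k E := by
  classical
  have : CharZero K := charZero_of_injective_algebraMap (algebraMap k K).injective
  let S : ClosedSubgroup (GX K) := ⟨s.range, by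
    have : IsCompact (Set.range s) := isCompact_range hs.1
    exact this.isClosed⟩
  set M : IntermediateField K (AlgebraicClosure K) := fixedField s.range with hM
  have hfix : M.fixingSubgroup = s.range := InfiniteGalois.fixingSubgroup_fixedField S
  set kb : Set (AlgebraicClosure K) := ((algebraicClosure k (AlgebraicClosure K) :
    IntermediateField k (AlgebraicClosure K)) : Set (AlgebraicClosure K)) with hkb
  set L : IntermediateField K (AlgebraicClosure K) := adjoin K ((M : Set (AlgebraicClosure K)) ∪ kb)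
    with hL
  have hbot : L.fixingSubgroup = ⊥ := by
    rw [eq_bot_iff]
    intro σ hσ
    rw [IntermediateField.mem_fixingSubgroup_iff] at hσ
    have h1 : σ ∈ M.fixingSubgroup := by
      rw [IntermediateField.mem_fixingSubgroup_iff]
      exact fun y hy => hσ y (subset_adjoin K _ (Or.inl hy))
    rw [hfix] at h1
    obtain ⟨g, rfl⟩ := h1
    have h2 : g = 1 := by
      ext y
      have h3 := hσ (y : AlgebraicClosure K) (subset_adjoin K _ (Or.inr y.2))
      rw [hs.2 g y] at h3
      exact h3
    rw [h2, map_one]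
    exact one_mem _
  have htop : L = ⊤ := by
    have := InfiniteGalois.fixedField_fixingSubgroup L
    rw [hbot] at this
    rw [← this]
    simp
  have hx : x ∈ L := by rw [htop]; trivial
  obtain ⟨T, hT, hxT⟩ := exists_finset_of_mem_adjoin hx
  let F : Set (AlgebraicClosure K) := {a | a ∈ T ∧ a ∈ M}
  have hF : F.Finite := T.finite_toSet.subset fun a ha => ha.1
  have : Finite F := hF
  refine ⟨adjoin K F, ⟨finiteDimensional_adjoin fun a _ => Algebra.IsIntegral.isIntegral a, ?_⟩, ?_⟩
  · rw [adjoin_le_iff]
    exact fun a ha => ha.2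
  · have hle : adjoin K (T : Set (AlgebraicClosure K)) ≤ comp k (adjoin K F) := by
      rw [adjoin_le_iff]
      intro a ha
      rcases hT ha with h | h
      · exact (le_sup_left : adjoin K F ≤ comp k (adjoin K F)) (subset_adjoin K F ⟨ha, h⟩)
      · exact (le_sup_right : _ ≤ comp k (adjoin K F)) (subset_adjoin K _ h)
    exact hle hxT

/-- the neighbourhoods of `s` -/
abbrev Nb (s : Gk k K →* GX K) : Type := {E : IntermediateField K (AlgebraicClosure K) //
  IsNeighbourhood s E}

lemma bot_nb (s : Gk k K →* GX K) : IsNeighbourhood s ⊥ := ⟨inferInstance, bot_le⟩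

lemma sup_nb {E E' : IntermediateField K (AlgebraicClosure K)} (h : IsNeighbourhood s E)
    (h' : IsNeighbourhood s E') : IsNeighbourhood s (E ⊔ E') := by
  have := h.1
  have := h'.1
  exact ⟨finiteDimensional_sup E E', sup_le h.2 h'.2⟩

instance : Nonempty (Nb s) := ⟨⟨⊥, bot_nb s⟩⟩

instance : IsDirected (Nb s) (· ≤ ·) :=
  ⟨fun E E' => ⟨⟨E.1 ⊔ E'.1, sup_nb E.2 E'.2⟩, (le_sup_left : E.1 ≤ E.1 ⊔ E'.1),
    (le_sup_right : E'.1 ≤ E.1 ⊔ E'.1)⟩⟩

/-- a valuation ring which contains `K` is everything -/
lemma exists_notMem {V : ValuationSubring (AlgebraicClosure K)} (hV : V ≠ ⊤) :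
    ∃ c : K, algebraMap K (AlgebraicClosure K) c ∉ V := by
  by_contra hno
  push Not at hno
  apply hV
  rw [eq_top_iff]
  intro x _
  have hx : IsIntegral K x := Algebra.IsIntegral.isIntegral x
  let f : K →+* V := (algebraMap K (AlgebraicClosure K)).codRestrict V.toSubring hno
  have h2 : IsIntegral V x := by
    obtain ⟨p, hp, hpx⟩ := hx
    refine ⟨p.map f, hp.map f, ?_⟩
    rw [Polynomial.eval₂_map]
    exact hpx
  have h3 : IsIntegrallyClosed V := inferInstance
  obtain ⟨y, hy⟩ := IsIntegrallyClosed.algebraMap_eq_of_integral h2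
  rw [← hy]
  exact y.2

/-- The limit of places along an ultrafilter. -/
noncomputable def limit (U : Ultrafilter (Nb s))
    (V : Nb s → ValuationSubring (AlgebraicClosure K)) :
    ValuationSubring (AlgebraicClosure K) where
  carrier := {x | ∀ᶠ E in (U : Filter (Nb s)), x ∈ V E}
  mul_mem' := by
    intro a b ha hb
    filter_upwards [ha, hb] with E h1 h2 using mul_mem h1 h2
  one_mem' := Filter.Eventually.of_forall fun E => one_mem _
  add_mem' := by
    intro a b ha hb
    filter_upwards [ha, hb] with E h1 h2 using add_mem h1 h2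
  zero_mem' := Filter.Eventually.of_forall fun E => zero_mem _
  neg_mem' := by
    intro a ha
    filter_upwards [ha] with E h1 using neg_mem h1
  mem_or_inv_mem' := by
    intro x
    have : ∀ᶠ E in (U : Filter (Nb s)), x ∈ V E ∨ x⁻¹ ∈ V E :=
      Filter.Eventually.of_forall fun E => (V E).mem_or_inv_mem x
    exact Ultrafilter.eventually_or.1 this

lemma mem_limit {U : Ultrafilter (Nb s)} {V : Nb s → ValuationSubring (AlgebraicClosure K)}
    {x : AlgebraicClosure K} : x ∈ limit U V ↔ ∀ᶠ E in (U : Filter (Nb s)), x ∈ V E := Iff.rfl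

/-- The compactness argument: the degree is lower semicontinuous. -/
lemma exists_place {D : ℕ} (C : Set K) (hC : C.Finite)
    (h : ∀ E, IsNeighbourhood s E → ∃ V, IsPlace k V ∧
      (∃ c ∈ C, algebraMap K (AlgebraicClosure K) c ∉ V) ∧ degree s N E V ≤ D) :
    ∃ W, IsPlace k W ∧ ∀ E, IsNeighbourhood s E → degree s N E W ≤ D := by
  classical
  choose V hV hVC hVD using fun E : Nb s => h E.1 E.2
  let U : Ultrafilter (Nb s) := Ultrafilter.of Filter.atTop
  have hU : ∀ E : Nb s, ∀ᶠ E' in (U : Filter (Nb s)), E ≤ E' := fun E =>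
    Ultrafilter.of_le _ (Filter.eventually_ge_atTop E)
  refine ⟨limit U V, ⟨?_, ?_⟩, ?_⟩
  · intro htop
    have h1 : ∀ᶠ E in (U : Filter (Nb s)), ∃ c ∈ C, algebraMap K (AlgebraicClosure K) c ∉ V E :=
      Filter.Eventually.of_forall hVC
    obtain ⟨c, -, h2⟩ := (Ultrafilter.eventually_exists_mem_iff hC).1 h1
    have h3 : algebraMap K (AlgebraicClosure K) c ∈ limit U V := by rw [htop]; trivial
    obtain ⟨E, h4, h5⟩ := (h2.and (mem_limit.1 h3)).exists
    exact h4 h5
  · intro c
    exact mem_limit.2 (Filter.Eventually.of_forall fun E => (hV E).2 c)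
  · intro E hE
    by_contra hlt
    push Not at hlt
    have hlt' : ((D + 1 : ℕ) : ℕ∞) ≤ (Set.range fun g : N => conj s E (limit U V) g).encard := by
      have := Order.add_one_le_of_lt hlt
      exact_mod_cast this
    obtain ⟨F, hF, hcard⟩ := Set.exists_subset_encard_eq hlt'
    have hFf : F.Finite := Set.finite_of_encard_eq_coe hcard
    have hch : ∀ A : Set (AlgebraicClosure K), ∃ g : N, A ∈ F → conj s E (limit U V) g = A := by
      intro A
      by_cases hA : A ∈ F
      · obtain ⟨g, hg⟩ := hF hA
        exact ⟨g, fun _ => hg⟩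
      · exact ⟨1, fun h => absurd h hA⟩
    choose g hg using hch
    have hcont : ∀ (γ : Gk k K) (x : AlgebraicClosure K), ∀ᶠ E' in (U : Filter (Nb s)),
        (x ∈ conj s E (V E') γ ↔ x ∈ conj s E (limit U V) γ) := by
      intro γ x
      by_cases hx : s γ x ∈ limit U V
      · filter_upwards [mem_limit.1 hx] with E' hE'
        exact ⟨fun h => ⟨h.1, hx⟩, fun h => ⟨h.1, hE'⟩⟩
      · have hx' := hx
        rw [mem_limit, ← Ultrafilter.eventually_not] at hx'
        filter_upwards [hx'] with E' hE'
        exact ⟨fun h => absurd h.2 hE', fun h => absurd h.2 hx⟩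
    have hev : ∀ᶠ E' in (U : Filter (Nb s)), ∀ p ∈ F ×ˢ F,
        p.1 ≠ p.2 → conj s E (V E') (g p.1) ≠ conj s E (V E') (g p.2) := by
      rw [Filter.eventually_all_finite (hFf.prod hFf)]
      rintro ⟨A, B⟩ ⟨hA, hB⟩
      by_cases hAB : A = B
      · exact Filter.Eventually.of_forall fun E' h => absurd hAB h
      · obtain ⟨x, hx⟩ : ∃ x, ¬ (x ∈ A ↔ x ∈ B) := by
          by_contra hno
          push Not at hno
          exact hAB (Set.ext hno)
        filter_upwards [hcont (g A) x, hcont (g B) x] with E' h1 h2 _ he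
        rw [hg A hA] at h1
        rw [hg B hB] at h2
        change conj s E (V E') (g A) = conj s E (V E') (g B) at he
        apply hx
        rw [← h1, ← h2, he]
    obtain ⟨E', h1, h2⟩ := (hev.and (hU ⟨E, hE⟩)).exists
    have hinj : Set.InjOn (fun A => conj s E (V E') (g A)) F := by
      intro A hA B hB hAB
      by_contra hne
      exact h1 (A, B) ⟨hA, hB⟩ hne hAB
    have h3 : (fun A => conj s E (V E') (g A)) '' F ⊆ Set.range fun g : N => conj s E (V E') g := by
      rintro _ ⟨A, -, rfl⟩
      exact ⟨g A, rfl⟩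
    have h4 := (Set.encard_le_encard h3).trans ((degree_mono (s := s) (N := N) h2 (V E')).trans
      (hVD E'))
    rw [hinj.encard_image, hcard] at h4
    have : D + 1 ≤ D := by exact_mod_cast h4
    omega

/-- the conjugate of `W` -/
def cj (s : Gk k K →* GX K) (W : ValuationSubring (AlgebraicClosure K)) (g : Gk k K) :
    Set (AlgebraicClosure K) := {x | s g x ∈ W}

lemma finite_conj (hs : IsSection s) {W : ValuationSubring (AlgebraicClosure K)} {D : ℕ}
    (h : ∀ E, IsNeighbourhood s E → degree s N E W ≤ D) :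
    (Set.range fun g : N => cj s W g).Finite := by
  classical
  by_contra hinf
  obtain ⟨F, hF, hcard⟩ := Set.exists_subset_encard_eq
    (s := Set.range fun g : N => cj s W g) (k := ((D + 1 : ℕ) : ℕ∞)) (by
      rw [Set.Infinite.encard_eq hinf]
      exact le_top)
  have hFf : F.Finite := Set.finite_of_encard_eq_coe hcard
  have hch : ∀ p : Set (AlgebraicClosure K) × Set (AlgebraicClosure K), ∃ E : Nb s,
      p.1 ≠ p.2 → p.1 ∩ (comp k E.1 : Set _) ≠ p.2 ∩ (comp k E.1 : Set _) := by
    intro p
    by_cases hp : p.1 = p.2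
    · exact ⟨⟨⊥, bot_nb s⟩, fun h => absurd hp h⟩
    · obtain ⟨x, hx⟩ : ∃ x, ¬ (x ∈ p.1 ↔ x ∈ p.2) := by
        by_contra hno
        push Not at hno
        exact hp (Set.ext hno)
      obtain ⟨E, hE, hxE⟩ := exists_comp hs x
      refine ⟨⟨E, hE⟩, fun _ he => hx ?_⟩
      have := Set.ext_iff.1 he x
      simp only [Set.mem_inter_iff, SetLike.mem_coe, hxE, and_true] at this
      exact this
  choose A hA using hch
  obtain ⟨E, hE⟩ : ∃ E : Nb s, ∀ p ∈ F ×ˢ F, A p ≤ E := by
    obtain ⟨E, hE⟩ := ((hFf.prod hFf).image A).toFinset.exists_le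
    refine ⟨E, fun p hp => hE _ ?_⟩
    rw [Set.Finite.mem_toFinset]
    exact ⟨p, hp, rfl⟩
  have hinj : Set.InjOn (fun B : Set (AlgebraicClosure K) => B ∩ (comp k E.1 : Set _)) F := by
    intro x hx y hy hxy
    by_contra hne
    refine hA (x, y) hne ?_
    have hle : comp k (A (x, y)).1 ≤ comp k E.1 := comp_mono (hE _ ⟨hx, hy⟩)
    ext z
    have := Set.ext_iff.1 hxy z
    simp only [Set.mem_inter_iff, SetLike.mem_coe] at this ⊢
    constructor
    · rintro ⟨h1, h2⟩
      exact ⟨(this.1 ⟨h1, hle h2⟩).1, h2⟩
    · rintro ⟨h1, h2⟩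
      exact ⟨(this.2 ⟨h1, hle h2⟩).1, h2⟩
  have h1 := hinj.encard_image
  rw [hcard] at h1
  have h2 : (fun B : Set (AlgebraicClosure K) => B ∩ (comp k E.1 : Set _)) '' F ⊆
      Set.range fun g : N => conj s E.1 W g := by
    rintro _ ⟨x, hx, rfl⟩
    obtain ⟨g, rfl⟩ := hF hx
    refine ⟨g, ?_⟩
    ext z
    exact ⟨fun h => ⟨h.2, h.1⟩, fun h => ⟨h.2, h.1⟩⟩
  have h3 := (Set.encard_le_encard h2).trans (h E.1 E.2)
  rw [h1] at h3
  have : D + 1 ≤ D := by exact_mod_cast h3
  omega

lemma injective (hs : IsSection s) {g : Gk k K} (h : s g = 1) : g = 1 := by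
  ext y
  have h3 := hs.2 g y
  rw [h] at h3
  exact h3.symm

lemma cj_eq {W : ValuationSubring (AlgebraicClosure K)} {h g g' : Gk k K}
    (e : cj s W (h * g) = cj s W (h * g')) (y : AlgebraicClosure K) :
    s h (s (g' * g⁻¹) y) ∈ W ↔ s h y ∈ W := by
  have h1 : ∀ γ : Gk k K, s h (s (γ * g⁻¹) y) = s (h * γ) (s g⁻¹ y) := by
    intro γ
    rw [map_mul s γ, map_mul s h, AlgEquiv.mul_apply, AlgEquiv.mul_apply]
  have h2 : s h y = s h (s (g * g⁻¹) y) := by
    rw [mul_inv_cancel, map_one, AlgEquiv.one_apply]
  rw [h2, h1, h1]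
  exact (Set.ext_iff.1 e (s g⁻¹ y)).symm

/-- The conjugate of `W` by `s(h)⁻¹`. -/
noncomputable def conjRing (s : Gk k K →* GX K) (W : ValuationSubring (AlgebraicClosure K)) (h : Gk k K) :
    ValuationSubring (AlgebraicClosure K) :=
  W.comap ((s h : AlgebraicClosure K →ₐ[K] AlgebraicClosure K) :
    AlgebraicClosure K →+* AlgebraicClosure K)

lemma mem_conjRing {W : ValuationSubring (AlgebraicClosure K)} {h : Gk k K}
    {y : AlgebraicClosure K} : y ∈ conjRing s W h ↔ s h y ∈ W := Iff.rfl

lemma isPlace_conjRing {W : ValuationSubring (AlgebraicClosure K)} (hW : IsPlace k W)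
    (h : Gk k K) : IsPlace k (conjRing s W h) := by
  refine ⟨?_, fun c => ?_⟩
  · intro htop
    obtain ⟨c, hc⟩ := exists_notMem hW.1
    apply hc
    have : algebraMap K (AlgebraicClosure K) c ∈ conjRing s W h := by rw [htop]; trivial
    rw [mem_conjRing, AlgEquiv.commutes] at this
    exact this
  · rw [mem_conjRing, IsScalarTower.algebraMap_apply k K (AlgebraicClosure K), AlgEquiv.commutes,
      ← IsScalarTower.algebraMap_apply]
    exact hW.2 c

/-- A place with finitely many conjugates under the infinite subgroup `N` is fixed by `s(N)`. -/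
lemma fixed_by (hs : IsSection s) (hinf : Infinite N)
    (hM : MeetTrivially k K) {W : ValuationSubring (AlgebraicClosure K)} (hW : IsPlace k W)
    (hfin : (Set.range fun g : N => cj s W g).Finite) {h : Gk k K} (hh : h ∈ N)
    (x : AlgebraicClosure K) : s h x ∈ W ↔ x ∈ W := by
  by_cases he : W = conjRing s W h
  · rw [← mem_conjRing, ← he]
  · exfalso
    have hfin2 : (Set.range fun g : N => (cj s W (1 * (g : Gk k K)), cj s W (h * (g : Gk k K)))).Finite := by
      apply (hfin.prod hfin).subset
      rintro _ ⟨g, rfl⟩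
      refine ⟨⟨g, ?_⟩, ⟨⟨h, hh⟩ * g, ?_⟩⟩
      · exact congrArg (cj s W) (one_mul _).symm
      · exact congrArg (cj s W) (Subgroup.coe_mul N ⟨h, hh⟩ g)
    have hninj : ¬ Function.Injective
        (fun g : N => (cj s W (1 * (g : Gk k K)), cj s W (h * (g : Gk k K)))) :=
      fun hi => Set.infinite_range_of_injective hi hfin2
    rw [Function.Injective] at hninj
    push Not at hninj
    obtain ⟨g, g', hgg, hne⟩ := hninj
    have e1 := cj_eq (congrArg Prod.fst hgg)
    have e2 := cj_eq (congrArg Prod.snd hgg)
    have h3 := injective hs (hM W (conjRing s W h) hW (isPlace_conjRing hW h) he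
      (s ((g' : Gk k K) * (g : Gk k K)⁻¹)) (fun y => by
        have := e1 y
        rwa [map_one, AlgEquiv.one_apply, AlgEquiv.one_apply] at this) e2)
    rw [mul_inv_eq_one] at h3
    exact hne (Subtype.ext h3.symm)

/-- Galois descent: a place with finitely many conjugates under the infinite subgroup `N` is fixed by
`s(G_k)`, if `N` meets its conjugates nontrivially. -/
lemma fixed_of_finite (hs : IsSection s)
    (hN : ∀ h : Gk k K, ∃ n ∈ N, n ≠ 1 ∧ h * n * h⁻¹ ∈ N) (hinf : Infinite N)
    (hM : MeetTrivially k K) {W : ValuationSubring (AlgebraicClosure K)} (hW : IsPlace k W)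
    (hfin : (Set.range fun g : N => cj s W g).Finite) (h : Gk k K) (x : AlgebraicClosure K) :
    s h x ∈ W ↔ x ∈ W := by
  by_cases he : W = conjRing s W h
  · rw [← mem_conjRing, ← he]
  · exfalso
    obtain ⟨n, hnN, hn, hnh⟩ := hN h
    have e2 : ∀ y, s n y ∈ conjRing s W h ↔ y ∈ conjRing s W h := by
      intro y
      have h1 := fixed_by hs hinf hM hW hfin hnh (s h y)
      have h2 : s (h * n * h⁻¹) (s h y) = s h (s n y) := by
        rw [← AlgEquiv.mul_apply, ← map_mul, inv_mul_cancel_right, map_mul, AlgEquiv.mul_apply]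
      rw [h2] at h1
      exact h1
    exact hn (injective hs (hM W (conjRing s W h) hW (isPlace_conjRing hW h) he (s n)
      (fixed_by hs hinf hM hW hfin hnN) e2))

lemma lt_one_iff {L : Type} [Field L] (V : ValuationSubring L) (x : L) :
    V.valuation x < 1 ↔ x = 0 ∨ x⁻¹ ∉ V := by
  rw [← ValuationSubring.mem_nonunits_iff, ValuationSubring.mem_nonunits_iff_or]

/-- exchange -/
lemma exchange (hK : ∃ t : K, Transcendental k t ∧ Algebra.IsAlgebraic (adjoin k {t}) K) {a : K}
    (ha : Transcendental k a) : Algebra.IsAlgebraic (adjoin k {a}) K := by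
  obtain ⟨t, ht, halg⟩ := hK
  have h1 : Algebra.IsAlgebraic (Algebra.adjoin k {t}) K :=
    IntermediateField.isAlgebraic_adjoin_iff_top.1 halg
  have h2 : Algebra.trdeg k K ≤ 1 := by
    have := Algebra.IsAlgebraic.trdeg_le_cardinalMk (R := k) (A := K) ({t} : Set K)
    simpa using this
  have h3 : AlgebraicIndependent k (fun _ : Unit => a) := algebraicIndependent_unique_type_iff.2 ha
  have h4 := h3.isTranscendenceBasis_of_trdeg_le_of_finite (by simpa using h2)
  have h5 := h4.isAlgebraic_field
  rw [Set.range_const] at h5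
  exact h5

/-- a valuation ring which contains a subfield over which `Ω` is algebraic is everything -/
lemma eq_top {V : ValuationSubring (AlgebraicClosure K)} (F : IntermediateField k K)
    (hF : Algebra.IsAlgebraic F K) (h : ∀ x ∈ F, algebraMap K (AlgebraicClosure K) x ∈ V) :
    V = ⊤ := by
  by_contra hV
  obtain ⟨c, hc⟩ := exists_notMem hV
  apply hc
  have hx : IsIntegral F c := (hF.isAlgebraic c).isIntegral
  let f : F →+* V := ((algebraMap K (AlgebraicClosure K)).comp (algebraMap F K)).codRestrict
    V.toSubring (fun x => h _ x.2)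
  have h2 : IsIntegral V (algebraMap K (AlgebraicClosure K) c) := by
    obtain ⟨p, hp, hpx⟩ := hx
    refine ⟨p.map f, hp.map f, ?_⟩
    rw [Polynomial.eval₂_map]
    have := congrArg (algebraMap K (AlgebraicClosure K)) hpx
    rw [Polynomial.hom_eval₂, map_zero] at this
    exact this
  have h3 : IsIntegrallyClosed V := inferInstance
  obtain ⟨y, hy⟩ := IsIntegrallyClosed.algebraMap_eq_of_integral h2
  rw [← hy]
  exact y.2

lemma aeval_mem {V : ValuationSubring (AlgebraicClosure K)} (hV : IsPlace k V)
    {a : AlgebraicClosure K} (ha : a ∈ V) (q : Polynomial k) : Polynomial.aeval a q ∈ V := by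
  rw [Polynomial.aeval_eq_sum_range]
  refine sum_mem fun i _ => ?_
  rw [Algebra.smul_def]
  exact mul_mem (hV.2 _) (pow_mem ha i)

lemma exists_poly {V : ValuationSubring (AlgebraicClosure K)} (hV : IsPlace k V)
    (hK : ∃ t : K, Transcendental k t ∧ Algebra.IsAlgebraic (adjoin k {t}) K) {a : K}
    (ha : algebraMap K (AlgebraicClosure K) a ∈ V) (htr : Transcendental k a) :
    ∃ q : Polynomial k, q ≠ 0 ∧
      V.valuation (Polynomial.aeval (algebraMap K (AlgebraicClosure K) a) q) < 1 := by
  by_contra hno
  push Not at hno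
  apply hV.1
  refine eq_top (adjoin k {a}) (exchange hK htr) ?_
  intro x hx
  obtain ⟨r, q, rfl⟩ := (mem_adjoin_simple_iff k x).1 hx
  by_cases hq : q = 0
  · simp [hq]
  · have h1 := hno q hq
    rw [map_div₀, ← Polynomial.aeval_algebraMap_apply, ← Polynomial.aeval_algebraMap_apply,
      ← ValuationSubring.valuation_le_one_iff, map_div₀]
    have h2 := (ValuationSubring.valuation_le_one_iff V _).2 (aeval_mem hV ha r)
    exact div_le_one_of_le₀ (h2.trans h1) zero_le

/-- a nonzero element of `k̄` is a unit -/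
lemma alg_mem {V : ValuationSubring (AlgebraicClosure K)} (hV : IsPlace k V)
    {b : AlgebraicClosure K} (hb : IsAlgebraic k b) : b ∈ V := by
  have hx : IsIntegral k b := hb.isIntegral
  let f : k →+* V := (algebraMap k (AlgebraicClosure K)).codRestrict V.toSubring hV.2
  have h2 : IsIntegral V b := by
    obtain ⟨p, hp, hpx⟩ := hx
    refine ⟨p.map f, hp.map f, ?_⟩
    rw [Polynomial.eval₂_map]
    exact hpx
  have h3 : IsIntegrallyClosed V := inferInstance
  obtain ⟨y, hy⟩ := IsIntegrallyClosed.algebraMap_eq_of_integral h2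
  rw [← hy]
  exact y.2

/-- the residue field is `k̄` -/
lemma residue {V : ValuationSubring (AlgebraicClosure K)} (hV : IsPlace k V)
    (hK : ∃ t : K, Transcendental k t ∧ Algebra.IsAlgebraic (adjoin k {t}) K) {a : K}
    (ha : algebraMap K (AlgebraicClosure K) a ∈ V) :
    ∃ b : algebraicClosure k (AlgebraicClosure K),
      V.valuation (algebraMap K (AlgebraicClosure K) a - b) < 1 := by
  by_cases htr : Transcendental k a
  · obtain ⟨q, hq, hqa⟩ := exists_poly hV hK ha htr
    set A := algebraMap K (AlgebraicClosure K) a with hA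
    have hs : (q.map (algebraMap k (AlgebraicClosure K))).Splits := IsAlgClosed.splits _
    have h1 := congrArg (Polynomial.eval A) hs.eq_prod_roots
    rw [Polynomial.eval_map_algebraMap, Polynomial.eval_mul, Polynomial.eval_C,
      Polynomial.eval_multiset_prod, Multiset.map_map, Polynomial.leadingCoeff_map] at h1
    rw [h1, map_mul] at hqa
    have h2 : V.valuation (algebraMap k (AlgebraicClosure K) q.leadingCoeff) = 1 := by
      apply le_antisymm ((ValuationSubring.valuation_le_one_iff V _).2 (hV.2 _))
      by_contra h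
      push Not at h
      rw [lt_one_iff] at h
      rcases h with h | h
      · rw [map_eq_zero] at h
        exact hq (Polynomial.leadingCoeff_eq_zero.1 h)
      · apply h
        rw [← map_inv₀]
        exact hV.2 _
    rw [h2, one_mul, map_multiset_prod, Multiset.map_map] at hqa
    by_contra hno
    push Not at hno
    apply absurd hqa
    rw [not_lt]
    apply Multiset.one_le_prod
    intro y hy
    rw [Multiset.mem_map] at hy
    obtain ⟨β, hβ, rfl⟩ := hy
    have hβ' : IsAlgebraic k β := by
      refine ⟨q, hq, ?_⟩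
      rw [← Polynomial.eval_map_algebraMap]
      exact (Polynomial.mem_roots'.1 hβ).2
    have := hno ⟨β, mem_algebraicClosure_iff.2 hβ'⟩
    simpa using this
  · have h1 : IsAlgebraic k a := by
      unfold Transcendental at htr
      exact not_not.1 htr
    have h2 : IsAlgebraic k (algebraMap K (AlgebraicClosure K) a) := h1.algebraMap
    exact ⟨⟨_, mem_algebraicClosure_iff.2 h2⟩, by simp⟩

/-! ### F. K. Schmidt's theorem -/

/-- `Ω` has transcendence degree one over `k` -/
lemma algebraic_over (hK : ∃ t : K, Transcendental k t ∧ Algebra.IsAlgebraic (adjoin k {t}) K)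
    {z : AlgebraicClosure K} (hz : Transcendental k z) :
    Algebra.IsAlgebraic (Algebra.adjoin k {z}) (AlgebraicClosure K) := by
  obtain ⟨t, ht, halg⟩ := hK
  have h1 : Algebra.IsAlgebraic (Algebra.adjoin k {t}) K :=
    IntermediateField.isAlgebraic_adjoin_iff_top.1 halg
  have h0 : AlgebraicIndependent k (fun _ : Unit => t) := algebraicIndependent_unique_type_iff.2 ht
  have hb : IsTranscendenceBasis k (fun _ : Unit => t) := by
    rw [isTranscendenceBasis_iff_algebraicIndependent_isAlgebraic, Set.range_const]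
    exact ⟨h0, h1⟩
  have hb' : IsTranscendenceBasis k (algebraMap K (AlgebraicClosure K) ∘ fun _ : Unit => t) :=
    hb.algebraMap_comp
  have h2 := hb'.cardinalMk_eq_trdeg
  have h3 : AlgebraicIndependent k (fun _ : Unit => z) := algebraicIndependent_unique_type_iff.2 hz
  have h4 := h3.isTranscendenceBasis_of_trdeg_le_of_finite h2.ge
  have h5 := h4.isAlgebraic
  rw [Set.range_const] at h5
  exact h5

/-- a nonzero constant is a unit -/
lemma val_const {V : ValuationSubring (AlgebraicClosure K)} (hV : IsPlace k V) {c : k}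
    (hc : c ≠ 0) : V.valuation (algebraMap k (AlgebraicClosure K) c) = 1 := by
  apply le_antisymm ((ValuationSubring.valuation_le_one_iff V _).2 (hV.2 _))
  by_contra h
  push Not at h
  rw [lt_one_iff] at h
  rcases h with h | h
  · rw [map_eq_zero] at h
    exact hc h
  · apply h
    rw [← map_inv₀]
    exact hV.2 _

/-- the value of a polynomial in `z` -/
lemma val_aeval {V : ValuationSubring (AlgebraicClosure K)} (hV : IsPlace k V)
    {z : AlgebraicClosure K} (hz : V.valuation z < 1) {p : Polynomial k} (hp : p ≠ 0) :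
    ∃ N : ℕ, V.valuation (Polynomial.aeval z p) = V.valuation z ^ N := by
  obtain ⟨q, hq, hdvd⟩ := Polynomial.exists_eq_pow_rootMultiplicity_mul_and_not_dvd p hp 0
  refine ⟨Polynomial.rootMultiplicity 0 p, ?_⟩
  have hzV : z ∈ V := (ValuationSubring.valuation_le_one_iff V _).1 hz.le
  have hq0 : q.coeff 0 ≠ 0 := by
    intro h
    apply hdvd
    rw [Polynomial.dvd_iff_isRoot, Polynomial.IsRoot, ← Polynomial.coeff_zero_eq_eval_zero, h]
  have h1 : V.valuation (Polynomial.aeval z q) = 1 := by
    have h2 := Polynomial.divX_mul_X_add q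
    have h3 := congrArg (Polynomial.aeval z) h2
    rw [map_add, map_mul, Polynomial.aeval_X, Polynomial.aeval_C] at h3
    rw [← h3]
    have h4 : V.valuation (Polynomial.aeval z q.divX * z) < 1 := by
      rw [map_mul]
      exact mul_lt_one_of_nonneg_of_lt_one_right
        ((ValuationSubring.valuation_le_one_iff V _).2 (aeval_mem hV hzV _)) zero_le hz
    have h5 := val_const hV hq0
    rw [add_comm, Valuation.map_add_eq_of_lt_left V.valuation (h4.trans_eq h5.symm), h5]
  have h6 := congrArg (Polynomial.aeval z) hq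
  rw [h6, map_mul, map_pow, map_sub, Polynomial.aeval_X, Polynomial.aeval_C, map_zero, sub_zero,
    map_mul, h1, mul_one, map_pow]

/-- rank one -/
lemma arch {V : ValuationSubring (AlgebraicClosure K)} (hV : IsPlace k V)
    (hK : ∃ t : K, Transcendental k t ∧ Algebra.IsAlgebraic (adjoin k {t}) K)
    {z w : AlgebraicClosure K} (hz : V.valuation z < 1) (hz0 : z ≠ 0) (hw0 : w ≠ 0) :
    ∀ᶠ N : ℕ in Filter.atTop, V.valuation z ^ N < V.valuation w := by
  have hmono : ∀ N₀ : ℕ, V.valuation z ^ N₀ ≤ V.valuation w →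
      ∀ᶠ N : ℕ in Filter.atTop, V.valuation z ^ N < V.valuation w := by
    intro N₀ h
    filter_upwards [Filter.eventually_gt_atTop N₀] with N hN
    refine lt_of_lt_of_le ?_ h
    exact pow_lt_pow_right_of_lt_one₀ ((V.valuation.pos_iff).2 hz0) hz hN
  by_cases hw : 1 ≤ V.valuation w
  · exact hmono 0 (by simpa using hw)
  push Not at hw
  have htr : Transcendental k z := by
    intro halg
    have h1 : z⁻¹ ∈ V := alg_mem hV halg.inv
    rw [lt_one_iff] at hz
    rcases hz with h | h
    · exact hz0 h
    · exact h h1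
  have halg := algebraic_over hK htr
  obtain ⟨t, ht, r, hr, hwt⟩ := (halg.isAlgebraic w).exists_nonzero_eq_adjoin_mul
    (mem_nonZeroDivisors_of_ne_zero hw0)
  have hzV : z ∈ V := (ValuationSubring.valuation_le_one_iff V _).1 hz.le
  have hwV : w ∈ V := (ValuationSubring.valuation_le_one_iff V _).1 hw.le
  -- `k[z] ⊆ V`
  have hsub : ∀ x ∈ Algebra.adjoin k {z}, x ∈ V := by
    intro x hx
    obtain ⟨p, rfl⟩ := Algebra.adjoin_mem_exists_aeval k z hx
    exact aeval_mem hV hzV p
  have htV : t ∈ V := by
    obtain ⟨p, rfl⟩ := Algebra.adjoin_mem_exists_aeval _ w ht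
    rw [Polynomial.aeval_eq_sum_range]
    refine sum_mem fun i _ => ?_
    rw [Algebra.smul_def]
    exact mul_mem (hsub _ (p.coeff i).2) (pow_mem hwV i)
  obtain ⟨p, hp⟩ := Algebra.adjoin_mem_exists_aeval k z r.2
  have hp0 : p ≠ 0 := by
    rintro rfl
    apply hr
    apply Subtype.ext
    rw [← hp]
    simp
  obtain ⟨N, hN⟩ := val_aeval hV hz hp0
  apply hmono N
  rw [← hN, hp]
  have h1 : (r : AlgebraicClosure K) = w * t := hwt.symm
  rw [h1, map_mul]
  exact mul_le_of_le_one_right' ((ValuationSubring.valuation_le_one_iff V _).2 htV)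

/-- places have rank one -/
lemma maximal {V V' : ValuationSubring (AlgebraicClosure K)} (hV : IsPlace k V)
    (hV' : IsPlace k V')
    (hK : ∃ t : K, Transcendental k t ∧ Algebra.IsAlgebraic (adjoin k {t}) K)
    (h : ∀ x ∈ V, x ∈ V') : V = V' := by
  by_contra hne
  obtain ⟨y, hy', hy⟩ : ∃ y, y ∈ V' ∧ y ∉ V := by
    by_contra hno
    push Not at hno
    exact hne (SetLike.ext fun x => ⟨h x, hno x⟩)
  apply hV'.1
  rw [eq_top_iff]
  intro w _
  by_cases hw : w = 0
  · rw [hw]
    exact zero_mem _
  have hy0 : y ≠ 0 := by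
    rintro rfl
    exact hy (zero_mem _)
  have hz : V.valuation y⁻¹ < 1 := by
    rw [lt_one_iff, inv_inv]
    exact Or.inr hy
  obtain ⟨N, hN⟩ := (arch hV hK hz (inv_ne_zero hy0) (inv_ne_zero hw)).exists
  have h1 : V.valuation (w * y⁻¹ ^ N) < 1 := by
    rw [map_mul, map_pow]
    calc V.valuation w * V.valuation y⁻¹ ^ N < V.valuation w * V.valuation w⁻¹ :=
          mul_lt_mul_of_pos_left hN ((V.valuation.pos_iff).2 hw)
      _ = 1 := by rw [← map_mul, mul_inv_cancel₀ hw, map_one]
  have h2 : w * y⁻¹ ^ N ∈ V' := h _ ((ValuationSubring.valuation_le_one_iff V _).1 h1.le)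
  have h3 : w = (w * y⁻¹ ^ N) * y ^ N := by
    rw [mul_assoc, ← mul_pow, inv_mul_cancel₀ hy0, one_pow, mul_one]
  rw [h3]
  exact mul_mem h2 (pow_mem hy' N)

lemma stable_lt {σ : GX K} {V : ValuationSubring (AlgebraicClosure K)}
    (h : ∀ x, σ x ∈ V ↔ x ∈ V) (x : AlgebraicClosure K) :
    V.valuation (σ x) < 1 ↔ V.valuation x < 1 := by
  rw [lt_one_iff, lt_one_iff, ← map_inv₀, h, map_eq_zero]

lemma stable_pow {σ : GX K} {V : ValuationSubring (AlgebraicClosure K)}
    (h : ∀ x, σ x ∈ V ↔ x ∈ V) (i : ℕ) (x : AlgebraicClosure K) : (σ ^ i) x ∈ V ↔ x ∈ V := by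
  induction i generalizing x with
  | zero => simp
  | succ i ih => rw [pow_succ, AlgEquiv.mul_apply, ih, h]

lemma pow_succ_apply (σ : GX K) (i : ℕ) (x : AlgebraicClosure K) :
    σ ((σ ^ i) x) = (σ ^ (i + 1)) x := by
  rw [pow_succ', AlgEquiv.mul_apply]

lemma exists_period (σ : GX K) (x : AlgebraicClosure K) : ∃ m : ℕ, (σ ^ (m + 1)) x = x := by
  have hx : IsIntegral K x := Algebra.IsIntegral.isIntegral x
  have hf : Finite ((minpoly K x).rootSet (AlgebraicClosure K)) :=
    (Polynomial.rootSet_finite _ _)
  have hmem : ∀ i : ℕ, (σ ^ i) x ∈ (minpoly K x).rootSet (AlgebraicClosure K) := by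
    intro i
    rw [Polynomial.mem_rootSet]
    refine ⟨minpoly.ne_zero hx, ?_⟩
    have := Polynomial.aeval_algHom_apply
      ((σ ^ i : GX K) : AlgebraicClosure K →ₐ[K] AlgebraicClosure K) x (minpoly K x)
    rw [minpoly.aeval, map_zero] at this
    exact this
  obtain ⟨i, j, hij, he⟩ := Finite.exists_ne_map_eq_of_infinite
    (fun i : ℕ => (⟨(σ ^ i) x, hmem i⟩ : (minpoly K x).rootSet (AlgebraicClosure K)))
  have he' : (σ ^ i) x = (σ ^ j) x := congrArg Subtype.val he
  have key : ∀ i j : ℕ, i < j → (σ ^ i) x = (σ ^ j) x → ∃ m : ℕ, (σ ^ (m + 1)) x = x := by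
    intro i j hij he
    obtain ⟨m, rfl⟩ := Nat.exists_eq_add_of_lt hij
    refine ⟨m, ?_⟩
    rw [add_assoc, pow_add, AlgEquiv.mul_apply] at he
    exact ((σ ^ i).injective he).symm
  rcases lt_or_gt_of_ne hij with h | h
  · exact key i j h he'
  · exact key j i h he'.symm

lemma shift {M : Type} [CommMonoid M] (a : ℕ → M) (n : ℕ) (h : a n = a 0) :
    ∏ i ∈ Finset.range n, a (i + 1) = ∏ i ∈ Finset.range n, a i := by
  cases n with
  | zero => simp
  | succ m => rw [Finset.prod_range_succ, h, Finset.prod_range_succ' a]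

lemma prod_lt {V : ValuationSubring (AlgebraicClosure K)} {b : ℕ → AlgebraicClosure K}
    (h : ∀ i, V.valuation (b i) < 1) (m : ℕ) :
    V.valuation (∏ i ∈ Finset.range (m + 1), b i) < 1 := by
  induction m with
  | zero => simpa using h 0
  | succ m ih =>
    rw [Finset.prod_range_succ, map_mul]
    exact mul_lt_one_of_nonneg_of_lt_one_right ih.le zero_le (h _)

lemma exists_fixed_sep {σ : GX K} {V V' : ValuationSubring (AlgebraicClosure K)}
    (h : ∀ x, σ x ∈ V ↔ x ∈ V) (h' : ∀ x, σ x ∈ V' ↔ x ∈ V') (hn : ¬ ∀ x ∈ V, x ∈ V') :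
    ∃ a, σ a = a ∧ a ∈ V ∧ V'.valuation a⁻¹ < 1 ∧ a ≠ 0 := by
  push Not at hn
  obtain ⟨y, hy, hy'⟩ := hn
  obtain ⟨m, hm⟩ := exists_period σ y
  have hy0 : y ≠ 0 := by
    rintro rfl
    exact hy' (zero_mem _)
  refine ⟨∏ i ∈ Finset.range (m + 1), (σ ^ i) y, ?_, ?_, ?_, ?_⟩
  · rw [map_prod]
    simp only [pow_succ_apply]
    exact shift (fun i => (σ ^ i) y) (m + 1) (by simpa using hm)
  · exact prod_mem fun i _ => (stable_pow h i y).2 hy
  · rw [← Finset.prod_inv_distrib]
    apply prod_lt
    intro i
    rw [lt_one_iff, inv_inv, stable_pow h' i y]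
    exact Or.inr hy'
  · rw [Finset.prod_ne_zero_iff]
    intro i _ hi
    rw [map_eq_zero] at hi
    exact hy0 hi

lemma exists_z {σ : GX K} {V V' : ValuationSubring (AlgebraicClosure K)} (hV : IsPlace k V)
    (hV' : IsPlace k V') (hne : V ≠ V')
    (hK : ∃ t : K, Transcendental k t ∧ Algebra.IsAlgebraic (adjoin k {t}) K)
    (h : ∀ x, σ x ∈ V ↔ x ∈ V) (h' : ∀ x, σ x ∈ V' ↔ x ∈ V') :
    ∃ z, z ≠ 0 ∧ σ z = z ∧ V.valuation z < 1 ∧ V'.valuation z⁻¹ < 1 := by
  obtain ⟨a, ha, haV, haV', ha0⟩ := exists_fixed_sep h h' (fun hc => hne (maximal hV hV' hK hc))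
  obtain ⟨b, hb, hbV', hbV, hb0⟩ := exists_fixed_sep h' h
    (fun hc => hne (maximal hV' hV hK hc).symm)
  refine ⟨a * b⁻¹, mul_ne_zero ha0 (inv_ne_zero hb0), by rw [map_mul, map_inv₀, ha, hb], ?_, ?_⟩
  · rw [map_mul]
    exact mul_lt_one_of_nonneg_of_lt_one_right
      ((ValuationSubring.valuation_le_one_iff V _).2 haV) zero_le hbV
  · rw [mul_inv, inv_inv, mul_comm, map_mul]
    exact mul_lt_one_of_nonneg_of_lt_one_right
      ((ValuationSubring.valuation_le_one_iff V' _).2 hbV') zero_le haV'

/-- the element `e = z ^ N / (1 + z ^ N)` is close to `0` for `V` and close to `1` for `V'` -/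
lemma val_e {V V' : ValuationSubring (AlgebraicClosure K)} {z : AlgebraicClosure K} (hz0 : z ≠ 0)
    (hz : V.valuation z < 1) (hz' : V'.valuation z⁻¹ < 1) {N : ℕ} (hN : N ≠ 0) :
    V.valuation (z ^ N / (1 + z ^ N)) = V.valuation z ^ N ∧
    V.valuation (1 - z ^ N / (1 + z ^ N)) = 1 ∧
    V'.valuation (1 - z ^ N / (1 + z ^ N)) = V'.valuation z⁻¹ ^ N := by
  have h1 : V.valuation (z ^ N) < 1 := by
    rw [map_pow]
    exact pow_lt_one₀ zero_le hz hN
  have h2 : V.valuation (1 + z ^ N) = 1 := by
    rw [Valuation.map_add_eq_of_lt_left V.valuation (by rw [map_one]; exact h1), map_one]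
  have h0 : 1 + z ^ N ≠ 0 := by
    intro h
    rw [h, map_zero] at h2
    exact zero_ne_one h2
  have h3 : 1 - z ^ N / (1 + z ^ N) = (1 + z ^ N)⁻¹ := by
    field_simp
    ring
  have h4 : V'.valuation (z⁻¹ ^ N) < 1 := by
    rw [map_pow]
    exact pow_lt_one₀ zero_le hz' hN
  have h5 : V'.valuation (1 + z⁻¹ ^ N) = 1 := by
    rw [Valuation.map_add_eq_of_lt_left V'.valuation (by rw [map_one]; exact h4), map_one]
  have h6 : (1 + z ^ N)⁻¹ = z⁻¹ ^ N * (1 + z⁻¹ ^ N)⁻¹ := by
    rw [inv_pow, ← mul_inv, mul_add, mul_one, mul_inv_cancel₀ (pow_ne_zero N hz0), add_comm]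
  refine ⟨?_, ?_, ?_⟩
  · rw [map_div₀, h2, div_one, map_pow]
  · rw [h3, map_inv₀, h2, inv_one]
  · rw [h3, h6, map_mul, map_inv₀, h5, inv_one, mul_one, map_pow]


/-- the side of `V'`: the polynomial `g = X ^ m (X - 1) - u r`, where `u r` has small coefficients, has a
root which is fixed by `σ`. -/
lemma exists_root {σ : GX K} {V' : ValuationSubring (AlgebraicClosure K)}
    (h' : ∀ x, σ x ∈ V' ↔ x ∈ V') {m : ℕ} {r : Polynomial (AlgebraicClosure K)}
    (hr : r.degree < ((m + 1 : ℕ) : WithBot ℕ)) (hrσ : r.map (RingHomClass.toRingHom σ) = r)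
    (hsmall : ∀ j, V'.valuation (r.coeff j) < 1) :
    ∃ β, σ β = β ∧ β ^ m * (β - 1) = r.eval β := by
  classical
  set g : Polynomial (AlgebraicClosure K) := Polynomial.X ^ m * (Polynomial.X - Polynomial.C 1) - r
    with hg
  have hev : ∀ β, g.eval β = β ^ m * (β - 1) - r.eval β := by
    intro β
    simp [hg]
  have hdeg : (Polynomial.X ^ m * (Polynomial.X - Polynomial.C 1) :
      Polynomial (AlgebraicClosure K)).degree = ((m + 1 : ℕ) : WithBot ℕ) := by
    rw [Polynomial.degree_mul, Polynomial.degree_X_pow, Polynomial.degree_X_sub_C]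
    rfl
  have hmon : g.Monic := by
    apply Polynomial.Monic.sub_of_left
    · exact (Polynomial.monic_X_pow m).mul (Polynomial.monic_X_sub_C 1)
    · rw [hdeg]
      exact hr
  have hgσ : g.map (RingHomClass.toRingHom σ) = g := by
    rw [hg, Polynomial.map_sub, hrσ]
    simp
  have hstab : ∀ β, g.eval β = 0 → g.eval (σ β) = 0 := by
    intro β hβ
    have := congrArg σ hβ
    rw [map_zero] at this
    rw [← this]
    conv_lhs => rw [← hgσ]
    exact Polynomial.eval_map_apply (RingHomClass.toRingHom σ) β
  have hsum : ∀ (F : ℕ → AlgebraicClosure K) (c : V'.ValueGroup), c ≠ 0 →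
      (∀ j, V'.valuation (F j) ≤ c) →
      V'.valuation (∑ j ∈ Finset.range (r.natDegree + 1), r.coeff j * F j) < c := by
    intro F c hc hF
    apply Valuation.map_sum_lt _ hc
    intro j _
    rw [map_mul]
    by_cases h0 : V'.valuation (F j) = 0
    · rw [h0, mul_zero]
      exact zero_lt_iff.2 hc
    · calc V'.valuation (r.coeff j) * V'.valuation (F j) < 1 * V'.valuation (F j) :=
            mul_lt_mul_of_pos_right (hsmall j) (zero_lt_iff.2 h0)
        _ ≤ c := by rw [one_mul]; exact hF j
  -- a root close to one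
  obtain ⟨β, hβ, hβ1⟩ : ∃ β, g.eval β = 0 ∧ V'.valuation (1 - β) < 1 := by
    by_contra hno
    push Not at hno
    have h1 : V'.valuation (g.eval 1) < 1 := by
      rw [hev, one_pow, sub_self, mul_zero, zero_sub, Valuation.map_neg,
        Polynomial.eval_eq_sum_range]
      apply hsum _ _ one_ne_zero
      intro j
      simp
    have hs : g.Splits := IsAlgClosed.splits _
    have h2 := congrArg (Polynomial.eval 1) hs.eq_prod_roots
    rw [Polynomial.eval_mul, Polynomial.eval_C, hmon.leadingCoeff, one_mul,
      Polynomial.eval_multiset_prod, Multiset.map_map] at h2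
    rw [h2, map_multiset_prod, Multiset.map_map] at h1
    apply absurd h1
    rw [not_lt]
    apply Multiset.one_le_prod
    intro y hy
    rw [Multiset.mem_map] at hy
    obtain ⟨β, hβ, rfl⟩ := hy
    have := hno β (Polynomial.mem_roots'.1 hβ).2
    simpa using this
  refine ⟨β, ?_, ?_⟩
  · by_contra hne
    have hβ' := hstab β hβ
    have hβ1' : V'.valuation (1 - σ β) < 1 := by
      have := (stable_lt h' (1 - β)).2 hβ1
      rwa [map_sub, map_one] at this
    have hmem : ∀ γ, V'.valuation (1 - γ) < 1 → γ ∈ V' := by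
      intro γ hγ
      have : γ = 1 - (1 - γ) := by ring
      rw [this]
      exact sub_mem (one_mem _) ((ValuationSubring.valuation_le_one_iff V' _).1 hγ.le)
    have hval : V'.valuation β = 1 := by
      have : β = -(1 - β) + 1 := by ring
      rw [this, add_comm, Valuation.map_add_eq_of_lt_left V'.valuation, map_one]
      rw [Valuation.map_neg, map_one]
      exact hβ1
    have hd0 : V'.valuation (β - σ β) ≠ 0 := by
      rw [Valuation.ne_zero_iff, sub_ne_zero]
      exact fun h => hne h.symm
    have hpow : ∀ j, V'.valuation (β ^ j - (σ β) ^ j) ≤ V'.valuation (β - σ β) := by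
      intro j
      obtain ⟨c, hc⟩ := sub_dvd_pow_sub_pow (⟨β, hmem _ hβ1⟩ : V') ⟨σ β, hmem _ hβ1'⟩ j
      have hc' := congrArg (Subtype.val : V' → AlgebraicClosure K) hc
      have hc'' : β ^ j - (σ β) ^ j = (β - σ β) * c := by simpa using hc'
      rw [hc'', map_mul]
      exact mul_le_of_le_one_right' ((ValuationSubring.valuation_le_one_iff V' _).2 c.2)
    -- the difference of the two equations
    have h1 : V'.valuation (r.eval β - r.eval (σ β)) < V'.valuation (β - σ β) := by
      rw [Polynomial.eval_eq_sum_range, Polynomial.eval_eq_sum_range, ← Finset.sum_sub_distrib]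
      simp_rw [← mul_sub]
      exact hsum _ _ hd0 hpow
    have h2 : r.eval β - r.eval (σ β) = β ^ m * (β - σ β) + (β ^ m - (σ β) ^ m) * (σ β - 1) := by
      have e1 := hev β
      have e2 := hev (σ β)
      rw [hβ] at e1
      rw [hβ'] at e2
      linear_combination e1 - e2
    have h3 : V'.valuation (β ^ m * (β - σ β)) = V'.valuation (β - σ β) := by
      rw [map_mul, map_pow, hval, one_pow, one_mul]
    have h4 : V'.valuation ((β ^ m - (σ β) ^ m) * (σ β - 1)) < V'.valuation (β - σ β) := by
      rw [map_mul, Valuation.map_sub_swap V'.valuation (σ β) 1]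
      calc V'.valuation (β ^ m - (σ β) ^ m) * V'.valuation (1 - σ β)
          ≤ V'.valuation (β - σ β) * V'.valuation (1 - σ β) := mul_le_mul_left (hpow m) _
        _ < V'.valuation (β - σ β) * 1 := mul_lt_mul_of_pos_left hβ1' (zero_lt_iff.2 hd0)
        _ = V'.valuation (β - σ β) := mul_one _
    rw [h2, Valuation.map_add_eq_of_lt_left V'.valuation (by rw [h3]; exact h4), h3] at h1
    exact lt_irrefl _ h1
  · have := hev β
    rw [hβ] at this
    exact (sub_eq_zero.1 this.symm)

/-- the side of `V`: no root of `g` is fixed by `σ`. -/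
lemma no_root {σ : GX K} {V : ValuationSubring (AlgebraicClosure K)}
    (h : ∀ x, σ x ∈ V ↔ x ∈ V) {m : ℕ} {y : ℕ → AlgebraicClosure K}
    (hy : ∀ i, σ (y i) = y (i + 1)) (hyV : ∀ i, y i ∈ V) {ε e β : AlgebraicClosure K}
    (hε : σ ε = ε) (hsep : ∀ i, (y i - y (i + 1)) / ε ∉ V)
    (he1 : V.valuation (1 - e) = 1) (he : V.valuation e < V.valuation ε ^ (m + 1))
    (he' : V.valuation e < 1) (hβσ : σ β = β)
    (hroot : e * (β ^ m * (β - 1)) = -((1 - e) * ∏ i ∈ Finset.range (m + 1), (β - y i))) :
    False := by
  have h1 := congrArg V.valuation hroot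
  rw [Valuation.map_neg, map_mul, map_mul, map_mul, map_pow, he1, one_mul, map_prod] at h1
  by_cases hβ : V.valuation β ≤ 1
  · have hβV : β ∈ V := (ValuationSubring.valuation_le_one_iff V _).1 hβ
    have h2 : ∏ i ∈ Finset.range (m + 1), V.valuation (β - y i) < V.valuation ε ^ (m + 1) := by
      rw [← h1]
      refine lt_of_le_of_lt ?_ he
      apply mul_le_of_le_one_right'
      apply mul_le_one'
      · exact pow_le_one₀ zero_le hβ
      · exact (ValuationSubring.valuation_le_one_iff V _).2 (sub_mem hβV (one_mem _))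
    obtain ⟨i, -, hi⟩ : ∃ i ∈ Finset.range (m + 1), V.valuation (β - y i) < V.valuation ε := by
      by_contra hno
      push Not at hno
      apply absurd h2
      rw [not_lt]
      have := Finset.prod_le_prod' hno
      rwa [Finset.prod_const, Finset.card_range] at this
    have h3 : V.valuation ((β - y i) / ε) ≤ 1 := by
      rw [map_div₀]
      exact div_le_one_of_le₀ hi.le zero_le
    have h4 : (β - y i) / ε ∈ V := (ValuationSubring.valuation_le_one_iff V _).1 h3
    have h5 : (β - y (i + 1)) / ε ∈ V := by
      have := (h ((β - y i) / ε)).2 h4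
      rwa [map_div₀, map_sub, hy, hβσ, hε] at this
    apply hsep i
    have h6 : (y i - y (i + 1)) / ε = (β - y (i + 1)) / ε - (β - y i) / ε := by ring
    rw [h6]
    exact sub_mem h5 h4
  · push Not at hβ
    have h2 : ∀ c ∈ V, V.valuation (β - c) = V.valuation β := by
      intro c hc
      rw [sub_eq_add_neg]
      apply Valuation.map_add_eq_of_lt_left V.valuation
      rw [Valuation.map_neg]
      exact lt_of_le_of_lt ((ValuationSubring.valuation_le_one_iff V _).2 hc) hβ
    rw [h2 1 (one_mem _), Finset.prod_congr rfl (fun i _ => h2 _ (hyV i)), Finset.prod_const,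
      Finset.card_range, ← pow_succ] at h1
    have h3 : V.valuation β ^ (m + 1) ≠ 0 := pow_ne_zero _ (ne_of_gt (lt_trans zero_lt_one hβ))
    have h4 : V.valuation e = 1 := by
      apply mul_right_cancel₀ h3
      rw [h1, one_mul]
    rw [h4] at he'
    exact lt_irrefl _ he'

/-- **F. K. Schmidt's theorem** for the places of an algebraic closure of a function field of one
variable: the decomposition groups of distinct places meet trivially. -/
theorem meetTrivially
    (hK : ∃ t : K, Transcendental k t ∧ Algebra.IsAlgebraic (adjoin k {t}) K) :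
    MeetTrivially k K := by
  intro V V' hV hV' hne σ h h'
  by_contra hσ
  obtain ⟨x₀, hx₀⟩ : ∃ x, σ x ≠ x := by
    by_contra hno
    push Not at hno
    exact hσ (AlgEquiv.ext hno)
  obtain ⟨z, hz0, hzσ, hz, hz'⟩ := exists_z hV hV' hne hK h h'
  have hx00 : x₀ ≠ 0 := by
    rintro rfl
    exact hx₀ (map_zero σ)
  obtain ⟨N₀, hN₀⟩ := (arch hV hK hz hz0 (inv_ne_zero hx00)).exists
  obtain ⟨x, hx⟩ : ∃ x, x = x₀ * z ^ N₀ := ⟨_, rfl⟩
  have hxV : x ∈ V := by
    rw [← ValuationSubring.valuation_le_one_iff, hx, map_mul, map_pow]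
    calc V.valuation x₀ * V.valuation z ^ N₀ ≤ V.valuation x₀ * V.valuation x₀⁻¹ :=
          mul_le_mul_right hN₀.le _
      _ = 1 := by rw [← map_mul, mul_inv_cancel₀ hx00, map_one]
  have hxσ : σ x ≠ x := by
    rw [hx, map_mul, map_pow, hzσ]
    intro hc
    exact hx₀ (mul_right_cancel₀ (pow_ne_zero _ hz0) hc)
  have hd0 : x - σ x ≠ 0 := sub_ne_zero.2 hxσ.symm
  obtain ⟨M, hM⟩ := (arch hV hK hz hz0 hd0).exists
  have hε0 : z ^ M ≠ 0 := pow_ne_zero _ hz0
  obtain ⟨m, hm⟩ := exists_period σ x
  set f : Polynomial (AlgebraicClosure K) := ∏ i ∈ Finset.range (m + 1),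
    (Polynomial.X - Polynomial.C ((σ ^ i) x)) with hf
  have hfmon : f.Monic := Polynomial.monic_prod_of_monic _ _ fun i _ => Polynomial.monic_X_sub_C _
  have hfdeg : f.degree = ((m + 1 : ℕ) : WithBot ℕ) := by
    rw [hf, Polynomial.degree_prod]
    simp
  have hfσ : f.map (RingHomClass.toRingHom σ) = f := by
    rw [hf, Polynomial.map_prod]
    have hpow : ∀ i : ℕ, (RingHomClass.toRingHom σ : AlgebraicClosure K →+* AlgebraicClosure K)
        ((σ ^ i) x) = (σ ^ (i + 1)) x := fun i => pow_succ_apply σ i x
    simp only [Polynomial.map_sub, Polynomial.map_X, Polynomial.map_C, hpow]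
    exact shift (fun i => Polynomial.X - Polynomial.C ((σ ^ i) x)) (m + 1) (by simp [hm])
  set H : Polynomial (AlgebraicClosure K) := Polynomial.X ^ m * (Polynomial.X - Polynomial.C 1)
    with hH
  have hHmon : H.Monic := (Polynomial.monic_X_pow m).mul (Polynomial.monic_X_sub_C 1)
  have hHdeg : H.degree = ((m + 1 : ℕ) : WithBot ℕ) := by
    rw [hH, Polynomial.degree_mul, Polynomial.degree_X_pow, Polynomial.degree_X_sub_C]
    rfl
  have hHσ : H.map (RingHomClass.toRingHom σ) = H := by
    simp [hH]
  have hRdeg : (H - f).degree < ((m + 1 : ℕ) : WithBot ℕ) := by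
    rw [← hHdeg]
    exact Polynomial.degree_sub_lt_left (hHdeg.trans hfdeg.symm) hHmon.ne_zero
      (by rw [hHmon.leadingCoeff, hfmon.leadingCoeff])
  have E1 := arch hV hK hz hz0 (pow_ne_zero (m + 1) hε0)
  have E2 : ∀ᶠ N : ℕ in Filter.atTop, ∀ j ∈ (H - f).support,
      V'.valuation z⁻¹ ^ N < V'.valuation ((H - f).coeff j)⁻¹ :=
    (Finset.eventually_all _).2 fun j hj => arch hV' hK hz' (inv_ne_zero hz0)
      (inv_ne_zero (Polynomial.mem_support_iff.1 hj))
  obtain ⟨N, ⟨hN1, hN2⟩, hN3⟩ := ((E1.and E2).and (Filter.eventually_ne_atTop 0)).exists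
  obtain ⟨e1, e2, e3⟩ := val_e hz0 hz hz' hN3
  obtain ⟨e, he⟩ : ∃ e, e = z ^ N / (1 + z ^ N) := ⟨_, rfl⟩
  rw [← he] at e1 e2 e3
  have heσ : σ e = e := by
    rw [he, map_div₀, map_add, map_one, map_pow, hzσ]
  have hsmall : ∀ j, V'.valuation ((Polynomial.C (1 - e) * (H - f)).coeff j) < 1 := by
    intro j
    rw [Polynomial.coeff_C_mul, map_mul, e3]
    by_cases hj : (H - f).coeff j = 0
    · rw [hj, map_zero, mul_zero]
      exact zero_lt_one
    · calc V'.valuation z⁻¹ ^ N * V'.valuation ((H - f).coeff j)
          < V'.valuation ((H - f).coeff j)⁻¹ * V'.valuation ((H - f).coeff j) :=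
            mul_lt_mul_of_pos_right (hN2 j (Polynomial.mem_support_iff.2 hj))
              ((V'.valuation.pos_iff).2 hj)
        _ = 1 := by rw [← map_mul, inv_mul_cancel₀ hj, map_one]
  have hdeg : (Polynomial.C (1 - e) * (H - f)).degree < ((m + 1 : ℕ) : WithBot ℕ) :=
    lt_of_le_of_lt (by
      rw [← Polynomial.smul_eq_C_mul]
      exact Polynomial.degree_smul_le _ _) hRdeg
  have hrσ : (Polynomial.C (1 - e) * (H - f)).map (RingHomClass.toRingHom σ) =
      Polynomial.C (1 - e) * (H - f) := by
    rw [Polynomial.map_mul, Polynomial.map_sub, hHσ, hfσ, Polynomial.map_C]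
    simp [heσ]
  obtain ⟨β, hβσ, hβ⟩ := exists_root h' hdeg hrσ hsmall
  refine no_root h (m := m) (y := fun i => (σ ^ i) x) (fun i => pow_succ_apply σ i x)
    (fun i => (stable_pow h i x).2 hxV) (ε := z ^ M) (e := e) (β := β)
    (by rw [map_pow, hzσ]) ?_ e2 ?_ ?_ hβσ ?_
  · intro i hi
    have h1 : ((σ ^ i) x - (σ ^ (i + 1)) x) / z ^ M = (σ ^ i) ((x - σ x) / z ^ M) := by
      have hz2 : (σ ^ i) z = z := by
        clear hi
        induction i with
        | zero => simp
        | succ i ih => rw [pow_succ, AlgEquiv.mul_apply, hzσ, ih]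
      rw [map_div₀, map_sub, map_pow, hz2, pow_succ, AlgEquiv.mul_apply]
    rw [h1, stable_pow h, ← ValuationSubring.valuation_le_one_iff, map_div₀, map_pow] at hi
    apply absurd hi
    rw [not_le]
    exact (one_lt_div₀ (pow_pos ((V.valuation.pos_iff).2 hz0) _)).2 hM
  · rw [e1, ← map_pow]
    exact (by simpa using hN1)
  · rw [e1]
    exact pow_lt_one₀ zero_le hz hN3
  · have h1 : (Polynomial.C (1 - e) * (H - f)).eval β = (1 - e) * (β ^ m * (β - 1) -
        ∏ i ∈ Finset.range (m + 1), (β - (σ ^ i) x)) := by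
      rw [Polynomial.eval_mul, Polynomial.eval_sub, hf, Polynomial.eval_prod, hH]
      simp
    rw [h1] at hβ
    linear_combination hβ

/-! ### The theorem -/

/-- a place fixed by `s` lies above a place of degree one -/
lemma geometric_of_fixed (hs : IsSection s) (hinf : Infinite N) (hM : MeetTrivially k K)
    (hK : ∃ t : K, Transcendental k t ∧ Algebra.IsAlgebraic (adjoin k {t}) K)
    {W : ValuationSubring (AlgebraicClosure K)} (hW : IsPlace k W)
    (hfix : ∀ (g : Gk k K) (x : AlgebraicClosure K), (s g x ∈ W ↔ x ∈ W)) : Geometric s := by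
  have hlt : ∀ (g : Gk k K) (x : AlgebraicClosure K), W.valuation x < 1 →
      W.valuation (s g x) < 1 := by
    intro g x hx
    rw [lt_one_iff] at hx ⊢
    rcases hx with hx | hx
    · exact Or.inl (by rw [hx, map_zero])
    · refine Or.inr ?_
      rw [← map_inv₀, hfix]
      exact hx
  refine ⟨W.comap (algebraMap K (AlgebraicClosure K)), ⟨?_, ?_, ?_, W, rfl, hfix⟩, ?_⟩
  · intro htop
    obtain ⟨c, hc⟩ := exists_notMem hW.1
    apply hc
    have : c ∈ W.comap (algebraMap K (AlgebraicClosure K)) := by rw [htop]; trivial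
    exact this
  · intro c
    rw [ValuationSubring.mem_comap, ← IsScalarTower.algebraMap_apply]
    exact hW.2 c
  · intro a ha
    rw [ValuationSubring.mem_comap] at ha
    obtain ⟨b, hb⟩ := residue hW hK ha
    have hbfix : ∀ g : Gk k K, g b = b := by
      intro g
      have h1 := hlt g _ hb
      rw [map_sub, AlgEquiv.commutes, hs.2 g b] at h1
      have h2 : W.valuation ((b : AlgebraicClosure K) - (g b : algebraicClosure k
          (AlgebraicClosure K))) < 1 := by
        have := W.valuation.map_sub_lt h1 hb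
        simpa using this
      rw [lt_one_iff] at h2
      rcases h2 with h2 | h2
      · rw [sub_eq_zero] at h2
        exact (Subtype.ext h2).symm
      · exfalso
        apply h2
        apply alg_mem hW
        apply IsAlgebraic.inv
        exact (mem_algebraicClosure_iff.1 (sub_mem b.2 (g b).2))
    obtain ⟨c, hc⟩ := (InfiniteGalois.mem_range_algebraMap_iff_fixed b).2 hbfix
    refine ⟨c, ?_⟩
    rw [lt_one_iff]
    have h3 : algebraMap K (AlgebraicClosure K) (a - algebraMap k K c) =
        algebraMap K (AlgebraicClosure K) a - b := by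
      rw [map_sub, ← IsScalarTower.algebraMap_apply, ← hc]
      rfl
    rw [← h3, lt_one_iff] at hb
    rcases hb with hb | hb
    · left
      rwa [map_eq_zero] at hb
    · right
      rw [ValuationSubring.mem_comap, map_inv₀]
      exact hb
  · rintro O' ⟨hO1, hO2, -, W', hW', hfix'⟩
    have hW'p : IsPlace k W' := by
      refine ⟨?_, fun c => ?_⟩
      · rintro rfl
        apply hO1
        rw [← hW']
        ext x
        simp [ValuationSubring.mem_comap]
      · have := hO2 c
        rw [← hW', ValuationSubring.mem_comap, ← IsScalarTower.algebraMap_apply] at this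
        exact this
    by_cases he : W = W'
    · rw [he, hW']
    · exfalso
      obtain ⟨g, hg⟩ := exists_ne (1 : N)
      exact hg (Subtype.ext (injective hs (hM W W' hW hW'p he _ (hfix g) (hfix' g))))

/-- **The birational section conjecture and closed points of bounded degree.**  Let `K/k` have
transcendence degree one, where `k` has characteristic zero, let `s` be a section of `G_X → G_k` and let
`N` be an infinite subgroup of `G_k` which meets each of its conjugates nontrivially (for example `G_k`
itself, any infinite normal subgroup, or the absolute Galois group of any extension `k'` of `k` inside the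
maximal solvable extension of a finitely generated field `k`); put `k' = k̄ ^ N`.

* `s` is geometric and arises from a unique point if and only if there are an element `c` of `K` and a
  number `D` such that for every neighbourhood `X_E` of `s` the curve `X_E` over `k'` has a closed point
  of degree at most `D` (over `k'`) which is a pole of `c`.
* If for every `D` some neighbourhood of `s` has only finitely many closed points of degree at most `D`
  over `k'` (for `k' = k` finitely generated over `ℚ` this is a theorem of Faltings and Frey), then `s`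
  is geometric and arises from a unique point if and only if for some `D` every neighbourhood of `s` has
  a closed point of degree at most `D` over `k'`. -/
theorem result {k K : Type} [Field k] [CharZero k] [Field K] [Algebra k K]
    (hK : ∃ t : K, Transcendental k t ∧ Algebra.IsAlgebraic (adjoin k {t}) K)
    (N : Subgroup (Gk k K)) (hinf : Infinite N)
    (hN : ∀ h : Gk k K, ∃ n ∈ N, n ≠ 1 ∧ h * n * h⁻¹ ∈ N)
    (s : Gk k K →* GX K) (hs : IsSection s) :
    (Geometric s ↔ ∃ (c : K) (D : ℕ), ∀ E, IsNeighbourhood s E → ∃ V, IsPlace k V ∧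
      algebraMap K (AlgebraicClosure K) c ∉ V ∧ degree s N E V ≤ D) ∧
    (FinitelyManyPlaces s N →
      (Geometric s ↔ ∃ D : ℕ, ∀ E, IsNeighbourhood s E → ∃ V, IsPlace k V ∧ degree s N E V ≤ D)) := by
  have hM : MeetTrivially k K := meetTrivially hK
  have h1 : Geometric s → ∃ c : K, ∀ E, IsNeighbourhood s E → ∃ V, IsPlace k V ∧
      algebraMap K (AlgebraicClosure K) c ∉ V ∧ degree s N E V ≤ (1 : ℕ) := by
    rintro ⟨O, ⟨hO1, hO2, -, W, hW, hfix⟩, -⟩
    have hWp : IsPlace k W := by
      refine ⟨?_, fun c => ?_⟩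
      · rintro rfl
        apply hO1
        rw [← hW]
        ext x
        simp [ValuationSubring.mem_comap]
      · have := hO2 c
        rw [← hW, ValuationSubring.mem_comap, ← IsScalarTower.algebraMap_apply] at this
        exact this
    obtain ⟨c, hc⟩ := exists_notMem hWp.1
    refine ⟨c, fun E _ => ⟨W, hWp, hc, ?_⟩⟩
    have h1 : (fun g : N => conj s E W g) = fun _ => conj s E W 1 := by
      funext g
      ext x
      simp [conj, hfix]
    unfold degree
    rw [h1, Set.range_const]
    simp
  have h2 : ∀ (C : Set K) (D : ℕ), C.Finite → (∀ E, IsNeighbourhood s E → ∃ V, IsPlace k V ∧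
      (∃ c ∈ C, algebraMap K (AlgebraicClosure K) c ∉ V) ∧ degree s N E V ≤ D) → Geometric s := by
    intro C D hC h
    obtain ⟨W, hW, hWD⟩ := exists_place C hC h
    exact geometric_of_fixed hs hinf hM hK hW
      (fixed_of_finite hs hN hinf hM hW (finite_conj hs hWD))
  refine ⟨⟨fun h => ?_, ?_⟩, fun frey => ⟨fun h => ?_, ?_⟩⟩
  · obtain ⟨c, hc⟩ := h1 h
    exact ⟨c, 1, hc⟩
  · rintro ⟨c, D, hD⟩
    refine h2 {c} D (Set.finite_singleton c) fun E hE => ?_
    obtain ⟨V, hV, hc, hd⟩ := hD E hE
    exact ⟨V, hV, ⟨c, rfl, hc⟩, hd⟩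
  · obtain ⟨c, hc⟩ := h1 h
    refine ⟨1, fun E hE => ?_⟩
    obtain ⟨V, hV, -, hd⟩ := hc E hE
    exact ⟨V, hV, hd⟩
  · rintro ⟨D, hD⟩
    obtain ⟨E₀, hE₀, hfin⟩ := frey D
    have hch : ∀ A : Set (AlgebraicClosure K), ∃ c : K, (∃ V, IsPlace k V ∧ degree s N E₀ V ≤ D ∧
        A = conj s E₀ V 1) → algebraMap K (AlgebraicClosure K) c ∉ A := by
      intro A
      by_cases hA : ∃ V, IsPlace k V ∧ degree s N E₀ V ≤ D ∧ A = conj s E₀ V 1
      · obtain ⟨V, hV, -, rfl⟩ := hA
        obtain ⟨c, hc⟩ := exists_notMem hV.1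
        refine ⟨c, fun _ hc' => hc ?_⟩
        rw [one_conj] at hc'
        exact hc'.2
      · exact ⟨0, fun h => absurd h hA⟩
    choose c hc using hch
    refine h2 _ D (hfin.image c) fun E hE => ?_
    obtain ⟨V, hV, hd⟩ := hD (E ⊔ E₀) (sup_nb hE hE₀)
    have hd0 : degree s N E₀ V ≤ D := (degree_mono le_sup_right V).trans hd
    refine ⟨V, hV, ⟨c (conj s E₀ V 1), ⟨_, ⟨V, hV, hd0, rfl⟩, rfl⟩, fun hmem => ?_⟩,
      (degree_mono le_sup_left V).trans hd⟩
    apply hc (conj s E₀ V 1) ⟨V, hV, hd0, rfl⟩
    exact ⟨(comp k E₀).algebraMap_mem _, by rw [AlgEquiv.commutes]; exact hmem⟩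

end Pool.Agent.Results.MP_8312c9_nt.BoundedDegreePlaces
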