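import Pool.Agent.TH954.SBirMain

/-!
# Birational sections of curves with a map to a power of an elliptic curve of rank one

Let `E` be an elliptic curve over a number field `K` such that `E(K)` has rank at most one over the
ring of `K`-endomorphisms of `E` and the Tate-Shafarevich group of `E` over `K` is killed by some
`M ≥ 1`, and let `X` be a closed subvariety of `Eⁿ` with only finitely many `K`-rational points, for
instance a curve of genus at least two. Let `F` be the function field of a curve over `K` with a
nonconstant map to `X`, that is, with a point `P ∈ X(F)` which is not in `Eⁿ(K)`. Then every section
of the map from the absolute Galois group of `F` to that of `K` which is geometric over the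
completion of `K` at each finite place comes from exactly one `K`-rational place of `F`. By the
theorem of Koenigsmann all sections are geometric over the completions, so for the field `F` the
birational section conjecture holds.

Proof. By the descent argument for `Eⁿ` (`Pool.Agent.TH954.points_eq`) the images in `Eⁿ` of the local
points of the section are one and the same rational point. So the local points are specialisations
at which a certain nonconstant function `t` vanishes, and any element of `F` has only finitely many
values at them, all of them algebraic over `K`. By Kummer theory, the Chebotarev density theorem and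
an argument with radicals of prime degree (`Pool.Agent.TH954.obstruct`) the values of any finite set
of elements are rational at one of the places at least, and a limit over an ultrafilter of places
gives the valuation ring.
-/

open IsDedekindDomain NumberField Pool.Agent.TH954

open scoped Classical in
theorem Pool.Agent.Results.MP_8312c9_nt.CurvesOverRankOneCurves.result
    (K : Type) [Field K] [NumberField K] (E : WeierstrassCurve K)
    (hE : ShortIntegral E) (hO : SmallRank E) (M : ℕ) (hM1 : 1 ≤ M) (hM : ShaKilledBy E M)
    (n : ℕ) (S : Set (MvPolynomial (Fin n × Fin 3) K)) (hS : ∀ f ∈ S, ∃ d, MultiHom d f)
    (hX : {y : Fin n → E.toAffine.Point | OnX S (fun i => crd (y i))}.Finite)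
    (F Ω B : Type) [Field F] [Field Ω] [Field B] [Algebra K F] [Algebra F Ω] [Algebra K Ω]
    [Algebra K B] [IsScalarTower K F Ω] [IsAlgClosure F Ω] [IsAlgClosure K B]
    (hF : ∃ t : F, Transcendental K t ∧
      Algebra.IsAlgebraic (IntermediateField.adjoin K {t}) F)
    (P : Fin n → (E.baseChange F).toAffine.Point)
    (hPS : OnX S (fun i => crd (P i)))
    (hPn : ∃ i, ∀ y : E.toAffine.Point, P i ≠ locHom (L := F) E y)
    (s : GalSection K F Ω B)
    (hloc : ∀ v : HeightOneSpectrum (𝓞 K),
      s.GeometricOver (v.adicCompletion K) (AlgebraicClosure (v.adicCompletion K))) :
    ∃! O : ValuationSubring F, s.ArisesFrom O :=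
  bir_main K E hE hO M hM1 hM n S hS hX F Ω B hF P hPS hPn s hloc
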