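import Pool.Agent.TH377.LocG.Res
import Pool.Agent.W623.SecF.Kt

/-!
# Superelliptic curves without birational sections, for arbitrary residue fields

Let `k` be a field of characteristic zero, `A` a discrete valuation ring of `k` with an arbitrary
residue field `κ`, for instance, if `k` is finitely generated over `ℚ`, the local ring of a divisor
on a scheme of finite type over `ℤ` with function field `k`, or if `k = K(t)` the local ring of a
`K`-rational point of the line.  Let `f_i ∈ A[x]` be finitely many polynomials with leading
coefficients in `Aˣ` such that the reduction of `∏ f_i` is separable, let `e_i ≥ 0`, and let `a ∈ k`.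
Let `d` be a natural number such that

* the valuation of `a` is not divisible by `d`, and
* the degrees of all irreducible factors over `κ` of the reduction of `∏ f_i` are divisible by `d`
  if `d` is odd and by `2d` if `d` is even.

We prove that for all `n ≥ 1` divisible by `d` the curve `a yⁿ = ∏ f_i(x)^(e_i)` has no `k`-rational
point, that the absolute Galois group of its function field `F` has no section over `G_k` and, if the
`e_i` are prime to `d`, that the same is true of the fundamental groups of the curve and of its open
subcurves.  A very small quotient of the absolute Galois group has no section: let `M` be generated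
over `F` by the algebraic closure `k̄` of `k` and by the roots of order `d` of the functions
`(x - θ)/(x - θ')`, `θ` and `θ'` being roots of `∏ f_i`.  The group `Gal(M/F k̄)` is abelian of
exponent `d`, and already `Gal(M/F) → G_k` has no section.

In particular, let `K` be any field of characteristic zero, for instance one that is finitely
generated over `ℚ`, and `k = K(t)`.  Let `ℓ` be an odd prime number, `ℓ ∣ n`, let `f ∈ K[x]` be
separable, and let `a ∈ K(t)` have a zero or pole of order prime to `ℓ` at some `K`-rational point of
the line; a change of the coordinate `t` moves this point to `t = 0`.  If there is a birational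
section, or a section over an open subcurve, for the curve `a(t) yⁿ = f(x)` over `K(t)`, then the
curve has a point over an extension of `K(t)` of a degree prime to `ℓ`.  So for all these curves the
weak form of the birational section conjecture holds up to extensions of a degree prime to `ℓ`.
In `MP_8312c9_nt.RamifiedTwists` the number `n` had to be even and the field `K` finitely generated;
the proof used elliptic curves over finite fields.

The fundamental group is described through valuations.  Let `U` be a smooth geometrically connected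
curve over `k` with function field `F`, let `Ω` be an algebraic closure of `F`, and let `F_U` be the
maximal extension of `F` inside `Ω` which is unramified over the closed points of `U`, that is, over
their local rings, which are valuation rings of `F`.  Then `π₁(U) = Gal(F_U/F)`, and the map
`π₁(U) → G_k` is the restriction of automorphisms to the algebraic closure of `k` in `Ω`.  For
`U = ∅` one gets `F_U = Ω` and the sections of `Gal(Ω/F) → G_k`.

Proof.  Let `s` be a section, and let `S` be the field generated by the roots `θ` of `∏ f_i`.  It is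
unramified at a valuation ring `V` of `k̄` above `A`; let `D` be its decomposition group, which maps
onto the automorphism group of the algebraic closure of `κ`.  By Kummer theory (Hilbert 90 for the
action of `G_S` through `s`) the functions `(x - θ)/(x - θ')` are of the form `c(θ, θ') β^d` with
constants `c(θ, θ')` in `S` and `β` fixed by `s(G_S)`.  The numbers `w(θ, θ') = V(c(θ, θ'))` are
well-defined modulo `d`, `w(θ, θ') + w(θ', θ'') = w(θ, θ'')`, and `w` is invariant under `D`.  The
equation of the curve shows that the sum over all `θ` of `e_θ w(θ, θ')` is the valuation of `a`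
modulo `d`.  Let `O` be an orbit of `D`, that is, the set of roots that reduce to the roots of an
irreducible factor `g` over `κ`.  As `D` is transitive on `O`, the values `w(θ, θ')`, `θ ∈ O`, for
fixed `θ' ∈ O` form a subgroup `H` of `ℤ/d`, and all values are taken equally often.  The sum of the
elements of `H` is `0` or of order `2`.  As `deg g` is divisible by `d` or `2d`, it follows that the
sum over `θ ∈ O` is `0` modulo `d`, for all `O`, a contradiction.
-/

open Polynomial

namespace Pool.Agent.Results.MP_8312c9_nt.FactorDegrees

universe u v w x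

section definitions

variable (k : Type u) (F : Type v) (Ω : Type w) [Field k] [Field F] [Field Ω] [Algebra k F]
  [Algebra F Ω] [Algebra k Ω]

/-- The inertia group of the valuation ring `W` of `Ω`, as a subgroup of `Gal(Ω/F)`: the
automorphisms of `Ω` over `F` that map `W` onto itself and act as the identity on its residue
field. -/
noncomputable def inertia (W : ValuationSubring Ω) : Subgroup (Ω ≃ₐ[F] Ω) :=
  (W.inertiaSubgroup F).map (W.decompositionSubgroup F).subtype

/-- `F_U`, for a set `U` of valuation rings of `F`: the elements of `Ω` fixed by the inertia groups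
of all valuation rings `W` of `Ω` with `W ∩ F ∈ U`.  If `Ω` is an algebraic closure of a field `F`
of characteristic zero, this is the maximal extension of `F` in `Ω` unramified over `U`. -/
noncomputable def unramified (U : Set (ValuationSubring F)) : IntermediateField F Ω :=
  ⨅ W : {W : ValuationSubring Ω // W.comap (algebraMap F Ω) ∈ U},
    IntermediateField.fixedField (inertia F Ω W.1)

/-- The map `τ : M → M` acts as `σ : K → K` on the elements that the fields `K` and `M` have in
common when they are regarded as subfields of `Ω` through `i` and `j`. -/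
def ActsAs {K M Ω : Type*} [Field K] [Field M] [Field Ω] (i : K →+* Ω) (j : M →+* Ω) (σ : K → K)
    (τ : M → M) : Prop :=
  ∀ c z, j z = i c → j (τ z) = i (σ c)

/-- Let `k ⊆ K ⊆ Ω` and `F ⊆ M ⊆ Ω` be fields.  A splitting of `Gal(M/F) → Gal(K/k)`: a continuous
homomorphism `s` from `Gal(K/k)` to `Gal(M/F)` such that `s(σ)` acts as `σ` on the elements of
`K ∩ M`. -/
structure Splitting (K M : Type*) [Field K] [Field M] [Algebra k K] [Algebra F M] [Algebra K Ω]
    [Algebra M Ω] where
  /-- the homomorphism `Gal(K/k) → Gal(M/F)` -/
  toHom : (K ≃ₐ[k] K) →* (M ≃ₐ[F] M)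
  cont : Continuous toHom
  compat : ∀ σ : K ≃ₐ[k] K, ActsAs (algebraMap K Ω) (algebraMap M Ω) σ (toHom σ)

/-- The sections of `π₁(U) = Gal(F_U/F) → G_k`: the continuous homomorphisms `s` from
`G_k = Gal(k̄/k)` to `Gal(F_U/F)`, where `k̄` is the algebraic closure of `k` in `Ω`, such that
`s(σ)` acts as `σ` on the elements of `k̄`. -/
def GaloisSection (U : Set (ValuationSubring F)) : Type w :=
  Splitting k F Ω (algebraicClosure k Ω) (unramified F Ω U)

end definitions

/-- The smooth projective curve with the affine equation `a yⁿ = f(x)` has no point over `k`: neither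
over the affine line, nor at infinity, where the points over `k` correspond to the solutions of
`a r^g = c` with `g = gcd(n, deg f)` and `c` the leading coefficient of `f`.  (If `f` has no root in
`k`, then all points over the affine line are given by solutions of the affine equation.) -/
def NoPoint {k : Type u} [Field k] (n : ℕ) (a : k) (f : k[X]) : Prop :=
  (¬ ∃ x y : k, a * y ^ n = f.eval x) ∧ ¬ ∃ r : k, a * r ^ Nat.gcd n f.natDegree = f.leadingCoeff

/-- Let `F` be any field over `k` that contains a point `(x, y)` of the curve `a yⁿ = f(x)`, for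
instance the function field of the curve, and let `Ω` be an algebraic closure of `F`.  Then for
every set `U` of valuation rings of `F` over `k` there is no section of `π₁(U) → G_k`.  If `F` is the
function field of the curve, such `U` are given by the smooth projective curve and by all its open
subcurves. -/
def NoSection {k : Type u} [Field k] (n : ℕ) (a : k) (f : k[X]) : Prop :=
  ∀ (F : Type v) (Ω : Type w) [Field F] [Field Ω] [Algebra k F] [Algebra F Ω] [Algebra k Ω]
    [IsScalarTower k F Ω] [IsAlgClosure F Ω] (x y : F) (U : Set (ValuationSubring F)),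
    algebraMap k F a * y ^ n = aeval x f → (∀ O ∈ U, ∀ c : k, algebraMap k F c ∈ O) →
      IsEmpty (GaloisSection k F Ω U)

/-- The extension `M` of `F` in `Ω` contains the algebraic closure of `k` and, for all roots `θ`, `θ'`
of the polynomial `P`, a root of order `d` of `(x - θ)/(x - θ')`. -/
def ContainsRoots {k : Type u} {F : Type v} {Ω : Type w} [Field k] [Field F] [Field Ω]
    [Algebra k F] [Algebra F Ω] [Algebra k Ω] (d : ℕ) (P : k[X]) (x : F)
    (M : IntermediateField F Ω) : Prop :=
  (∀ c : algebraicClosure k Ω, (c : Ω) ∈ M) ∧ ∀ θ θ' : Ω, aeval θ P = 0 → aeval θ' P = 0 →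
    ∃ z ∈ M, z ^ d = (algebraMap F Ω x - θ) / (algebraMap F Ω x - θ')

/-- Let `F` be any field over `k` that contains a point `(x, y)` of the curve `a yⁿ = f(x)` and let
`Ω` be an algebraic closure of `F`.  If the extension `M` of `F` in `Ω` contains the algebraic closure
of `k` and the roots of order `d` of the functions `(x - θ)/(x - θ')`, then there is no section of
`Gal(M/F) → G_k`. -/
def NoKummerSection {k : Type u} [Field k] (d n : ℕ) (a : k) (P f : k[X]) : Prop :=
  ∀ (F : Type v) (Ω : Type w) [Field F] [Field Ω] [Algebra k F] [Algebra F Ω] [Algebra k Ω]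
    [IsScalarTower k F Ω] [IsAlgClosure F Ω] (x y : F) (M : IntermediateField F Ω),
    algebraMap k F a * y ^ n = aeval x f → ContainsRoots d P x M →
      IsEmpty (Splitting k F Ω (algebraicClosure k Ω) M)

/-- The degrees of all irreducible factors of `P` are divisible by `N`. -/
def FactorsDivisible {κ : Type x} [Field κ] (N : ℕ) (P : κ[X]) : Prop :=
  ∀ g : κ[X], Irreducible g → g ∣ P → N ∣ g.natDegree

/-- The valuation of `a` at `A` is not divisible by `d`: `a` is the product of a unit and of a power
of a uniformiser with such an exponent. -/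
def ValuationNotDivisible {k : Type u} [Field k] (A : ValuationSubring k) (d : ℕ) (a : k) : Prop :=
  ∃ (ϖ t : A) (m : ℤ), Irreducible ϖ ∧ IsUnit t ∧ ¬ (d : ℤ) ∣ m ∧ a = (t : k) * (ϖ : k) ^ m

/-- `a = t^m p(t)/q(t)` with `m` not divisible by `d` and `p(0), q(0) ≠ 0`: a rational function in `t`
whose order at the point `t = 0` is not divisible by `d`. -/
def OrderNotDivisible (K : Type x) {k : Type u} [Field K] [Field k] [Algebra K k] (t : k) (d : ℕ)
    (a : k) : Prop :=
  ∃ (m : ℤ) (p q : K[X]), ¬ (d : ℤ) ∣ m ∧ p.eval 0 ≠ 0 ∧ q.eval 0 ≠ 0 ∧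
    a = t ^ m * (aeval t p / aeval t q)

/-- All the assertions for the curve `a yⁿ = ∏ f_i(x)^(e_i)` and the exponent `d`. -/
def NothingAt {k : Type u} [Field k] {I : Type} [Fintype I] (d n : ℕ) (a : k) (f : I → k[X])
    (e : I → ℕ) : Prop :=
  NoPoint n a (∏ i, f i ^ e i) ∧
    NoKummerSection.{u, v, w} d n a (∏ i, f i) (∏ i, f i ^ e i) ∧
    ((∀ i, Nat.Coprime d (e i)) → NoSection.{u, v, w} n a (∏ i, f i ^ e i))

/-- The local statement: `A` is a discrete valuation ring of `k` whose residue field `κ` is arbitrary,
the `f_i ∈ A[x]` have unit leading coefficients, the reduction of `∏ f_i` is separable, and the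
degrees of its irreducible factors are divisible by `d` if `d` is odd and by `2d` if `d` is even. -/
def LocalStatement : Prop :=
  ∀ (k : Type u) [Field k] [CharZero k] (A : ValuationSubring k) [IsDiscreteValuationRing A]
    (κ : Type x) [Field κ] (ρ : A →+* κ), Function.Surjective ρ → ∀ (I : Type) [Fintype I]
    (f : I → A[X]) (e : I → ℕ), (∀ i, IsUnit (f i).leadingCoeff) →
    ((∏ i, f i).map ρ).Separable → ∀ d : ℕ, 0 < d →
    FactorsDivisible (Nat.gcd 2 d * d) ((∏ i, f i).map ρ) → ∀ a : k,
    ValuationNotDivisible A d a → ∀ n : ℕ, d ∣ n →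
    NothingAt.{u, v, w} d n a (fun i => (f i).map (algebraMap A k)) e

/-- The statement for rational function fields `k = K(t)`, `K` any field of characteristic zero. -/
def FunctionFieldStatement : Prop :=
  ∀ (K : Type x) [Field K] [CharZero K] (k : Type u) [Field k] [Algebra K k] (t : k),
    Transcendental K t → IntermediateField.adjoin K {t} = (⊤ : IntermediateField K k) →
    ∀ (I : Type) [Fintype I] (f : I → K[X]) (e : I → ℕ), (∏ i, f i).Separable →
    ∀ d : ℕ, 0 < d → FactorsDivisible (Nat.gcd 2 d * d) (∏ i, f i) → ∀ a : k,
    OrderNotDivisible K t d a → ∀ n : ℕ, d ∣ n →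
    NothingAt.{u, v, w} d n a (fun i => (f i).map (algebraMap K k)) e

/-- The curve `a yⁿ = f(x)` over `k` has a point over a finite extension of degree prime to `ℓ`. -/
def PointPrimeTo {k : Type u} [Field k] (ℓ n : ℕ) (a : k) (f : k[X]) : Prop :=
  ∃ L : IntermediateField k (AlgebraicClosure k), FiniteDimensional k L ∧
    ¬ ℓ ∣ Module.finrank k L ∧ ∃ x y : L, algebraMap k L a * y ^ n = aeval x f

/-- The statement on points over extensions of a degree prime to `ℓ`, for `k = K(t)`. -/
def PrimeToStatement : Prop :=
  ∀ (K : Type x) [Field K] [CharZero K] (k : Type u) [Field k] [Algebra K k] (t : k),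
    Transcendental K t → IntermediateField.adjoin K {t} = (⊤ : IntermediateField K k) →
    ∀ f : K[X], f.Separable → ∀ ℓ : ℕ, ℓ.Prime → ℓ ≠ 2 → ∀ a : k, OrderNotDivisible K t ℓ a →
    ∀ n : ℕ, 0 < n → ℓ ∣ n →
    ¬ (NoKummerSection.{u, v, w} ℓ n a (f.map (algebraMap K k)) (f.map (algebraMap K k)) ∧
      NoSection.{u, v, w} n a (f.map (algebraMap K k))) →
    PointPrimeTo ℓ n a (f.map (algebraMap K k))

section proof

/-- (1), the general theorem -/
theorem general (k : Type u) [Field k] [CharZero k] (A : ValuationSubring k)
    [IsDiscreteValuationRing A] (κ : Type x) [Field κ] (ρ : A →+* κ) (hρ : Function.Surjective ρ)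
    (I : Type) [Fintype I] (f : I → A[X]) (e : I → ℕ) (hlc : ∀ i, IsUnit (f i).leadingCoeff)
    (hs : ((∏ i, f i).map ρ).Separable) (d : ℕ) (hd : 0 < d)
    (hf : FactorsDivisible (Nat.gcd 2 d * d) ((∏ i, f i).map ρ)) (a : k)
    (ha : ValuationNotDivisible A d a) (n : ℕ) (hdn : d ∣ n) :
    NothingAt.{u, v, w} d n a (fun i => (f i).map (algebraMap A k)) e := by
  obtain ⟨ϖ, t, m, hϖ, ht, hm, ha⟩ := ha
  have ha' : a = algebraMap A k t * algebraMap A k ϖ ^ m := ha
  have h1 : ∏ i, (f i).map (algebraMap A k) ^ e i = (∏ i, f i ^ e i).map (algebraMap A k) := by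
    rw [Polynomial.map_prod]
    exact Finset.prod_congr rfl fun i _ => (Polynomial.map_pow _ _).symm
  have h2 : ∏ i, (f i).map (algebraMap A k) = (∏ i, f i).map (algebraMap A k) :=
    (Polynomial.map_prod _ _ _).symm
  unfold NothingAt
  rw [h1, h2]
  refine ⟨⟨?_, ?_⟩, ?_, ?_⟩
  · rintro ⟨x, y, hxy⟩
    exact Pool.Agent.TH377.LocG.res_P ρ hρ d hd f e hlc hs hf ϖ hϖ a t ht m hm ha' n hdn x y hxy
  · rintro ⟨r, hr⟩
    exact Pool.Agent.TH377.LocG.res_inf ρ hρ d hd f e hlc hs hf ϖ hϖ a t ht m hm ha' n hdn r hr
  · intro F Ω _ _ _ _ _ _ _ x y M hxy hM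
    have hcl : IsAlgClosed Ω := IsAlgClosure.isAlgClosed F
    have halg : Algebra.IsAlgebraic F Ω := IsAlgClosure.isAlgebraic
    have h := Pool.Agent.TH377.LocG.res_M (F := F) (Ω := Ω) ρ hρ d hd f e hlc hs hf ϖ hϖ a t ht m hm ha' n hdn
      M hM.1 x y hxy hM.2
    exact ⟨fun s => h.false ⟨s.toHom, s.cont, fun σ c z hz => s.compat σ c z hz⟩⟩
  · intro he F Ω _ _ _ _ _ _ _ x y U hxy hU
    have hcl : IsAlgClosed Ω := IsAlgClosure.isAlgClosed F
    have halg : Algebra.IsAlgebraic F Ω := IsAlgClosure.isAlgebraic
    have h := Pool.Agent.TH377.LocG.res_U (F := F) (Ω := Ω) ρ hρ d hd f e hlc hs hf ϖ hϖ a t ht m hm ha' n hdn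
      he U hU x y hxy
    exact ⟨fun s => h.false ⟨s.toHom, s.cont, s.compat⟩⟩

/-- (2), rational function fields -/
theorem rational (K : Type x) [Field K] [CharZero K] (k : Type u) [Field k]
    [Algebra K k] (t : k) (ht : Transcendental K t)
    (htop : IntermediateField.adjoin K {t} = (⊤ : IntermediateField K k))
    (I : Type) [Fintype I] (f : I → K[X]) (e : I → ℕ) (hs : (∏ i, f i).Separable) (d : ℕ)
    (hd : 0 < d) (hf : FactorsDivisible (Nat.gcd 2 d * d) (∏ i, f i)) (a : k)
    (ha : OrderNotDivisible K t d a) (n : ℕ) (hdn : d ∣ n) :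
    NothingAt.{u, v, w} d n a (fun i => (f i).map (algebraMap K k)) e := by
  have hcz : CharZero k := charZero_of_injective_algebraMap (algebraMap K k).injective
  obtain ⟨A, hA, ρ, j, hρ, hρi, hi, hX, hunit⟩ := Pool.Agent.W623.SecF.exists_dvr t ht htop
  obtain ⟨m, p, q, hm, hp, hq, ha⟩ := ha
  have hf0 : ∀ i, f i ≠ 0 := fun i => Finset.prod_ne_zero_iff.1 hs.ne_zero i (Finset.mem_univ i)
  have hinj : Function.Injective (j.comp C) := (j.comp C).injective
  have hρC : (ρ.comp (j.comp C)) = RingHom.id K := by
    ext c
    change ρ (j (C c)) = c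
    rw [hρi, eval_C]
  have hgρ : (∏ i, (f i).map (j.comp C)).map ρ = ∏ i, f i := by
    rw [← Polynomial.map_prod, Polynomial.map_map, hρC, Polynomial.map_id]
  have hgk : ∀ i, ((f i).map (j.comp C)).map (algebraMap A k) = (f i).map (algebraMap K k) := by
    intro i
    rw [Polynomial.map_map]
    congr 1
    ext c
    change ((j (C c) : A) : k) = _
    rw [hi, aeval_C]
  have hlc : ∀ i, IsUnit ((f i).map (j.comp C)).leadingCoeff := by
    intro i
    rw [leadingCoeff_map_of_injective hinj]
    exact (isUnit_iff_ne_zero.2 (leadingCoeff_ne_zero.2 (hf0 i))).map (j.comp C)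
  have hq' := hunit q hq
  obtain ⟨v, hv⟩ := hq'
  have ha' : ValuationNotDivisible A d a := by
    refine ⟨j X, j p * ((v⁻¹ : Aˣ) : A), m, hX, (hunit p hp).mul (Units.isUnit _), hm, ?_⟩
    have h1 : ((j X : A) : k) = t := by rw [hi, aeval_X]
    have h2 : (((v⁻¹ : Aˣ) : A) : k) = (aeval t q)⁻¹ := by
      have h3 : ((v : A) : k) * (((v⁻¹ : Aˣ) : A) : k) = 1 := by
        have h4 := v.mul_inv
        exact_mod_cast congrArg (fun z : A => (z : k)) h4
      rw [hv, hi] at h3
      exact eq_inv_of_mul_eq_one_right h3
    have h5 : ((j p * ((v⁻¹ : Aˣ) : A) : A) : k) = aeval t p / aeval t q := by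
      change ((j p : A) : k) * (((v⁻¹ : Aˣ) : A) : k) = _
      rw [hi, h2, div_eq_mul_inv]
    rw [h5, h1, ha, mul_comm]
  have h6 := general.{u, v, w, x} k A K ρ hρ I (fun i => (f i).map (j.comp C)) e hlc
    (by rwa [hgρ]) d hd (by rwa [hgρ]) a ha' n hdn
  simp only [hgk] at h6
  exact h6

/-- (3), points over extensions of degree prime to `ℓ` -/
theorem prime_to (K : Type x) [Field K] [CharZero K] (k : Type u) [Field k]
    [Algebra K k] (t : k) (ht : Transcendental K t)
    (htop : IntermediateField.adjoin K {t} = (⊤ : IntermediateField K k))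
    (f : K[X]) (hs : f.Separable) (ℓ : ℕ) (hℓ : ℓ.Prime) (hodd : ℓ ≠ 2) (a : k)
    (ha : OrderNotDivisible K t ℓ a) (n : ℕ) (hn : 0 < n) (hℓn : ℓ ∣ n)
    (h : ¬ (NoKummerSection.{u, v, w} ℓ n a (f.map (algebraMap K k)) (f.map (algebraMap K k)) ∧
      NoSection.{u, v, w} n a (f.map (algebraMap K k)))) :
    PointPrimeTo ℓ n a (f.map (algebraMap K k)) := by
  have hg : Nat.gcd 2 ℓ = 1 :=
    (Nat.coprime_primes Nat.prime_two hℓ).2 (Ne.symm hodd)
  -- an irreducible factor over `K`
  have h1 : ¬ FactorsDivisible ℓ f := by
    intro hf
    apply h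
    have h2 := rational.{u, v, w, x} K k t ht htop Unit (fun _ => f) (fun _ => 1) (by simpa using hs)
      ℓ hℓ.pos (by simpa [hg] using hf) a ha n hℓn
    simp only [NothingAt, Finset.univ_unique, Finset.prod_singleton, pow_one] at h2
    exact ⟨h2.2.1, h2.2.2 fun _ => Nat.coprime_one_right ℓ⟩
  -- an irreducible factor over `k`
  have hfk0 : f.map (algebraMap K k) ≠ 0 := (Polynomial.map_ne_zero_iff
    (algebraMap K k).injective).2 hs.ne_zero
  unfold FactorsDivisible at h1
  push Not at h1
  obtain ⟨g, hg1, hg2, hg3⟩ := h1
  have hgk0 : g.map (algebraMap K k) ≠ 0 := (Polynomial.map_ne_zero_iff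
    (algebraMap K k).injective).2 hg1.ne_zero
  have h2 : ¬ Pool.Agent.TH377.LocG.FactorDiv ℓ (g.map (algebraMap K k)) := by
    intro h3
    have h4 := h3.natDegree hgk0
    rw [natDegree_map] at h4
    exact hg3 h4
  unfold Pool.Agent.TH377.LocG.FactorDiv at h2
  push Not at h2
  obtain ⟨p, hp1, hp2, hp3⟩ := h2
  obtain ⟨θ, hθ⟩ := IsAlgClosed.exists_aeval_eq_zero (AlgebraicClosure k) p
    (degree_pos_of_irreducible hp1).ne'
  have hint : IsIntegral k θ := Algebra.IsIntegral.isIntegral θ
  refine ⟨IntermediateField.adjoin k {θ}, IntermediateField.adjoin.finiteDimensional hint, ?_,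
    ⟨θ, IntermediateField.mem_adjoin_simple_self k θ⟩, 0, ?_⟩
  · rw [IntermediateField.adjoin.finrank hint]
    have h5 : (minpoly k θ).natDegree = p.natDegree := by
      have h6 := minpoly.eq_of_irreducible hp1 hθ
      rw [← h6, natDegree_mul_C (inv_ne_zero (leadingCoeff_ne_zero.2 hp1.ne_zero))]
    rw [h5]
    exact hp3
  · rw [zero_pow hn.ne', mul_zero]
    have h5 : aeval θ (f.map (algebraMap K k)) = 0 := by
      obtain ⟨q, hq⟩ := hp2.trans (Polynomial.map_dvd (algebraMap K k) hg2)
      rw [hq, map_mul, hθ, zero_mul]
    symm
    apply (algebraMap (IntermediateField.adjoin k {θ}) (AlgebraicClosure k)).injective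
    rw [map_zero, ← aeval_algebraMap_apply]
    exact h5

end proof

/-- (1) Let `k` be a field of characteristic zero, `A` a discrete valuation ring of `k` with residue
field `κ`, which may be any field.  Let the polynomials `f_i ∈ A[x]` have unit leading coefficients
and let the reduction of `∏ f_i` be separable.  Let `d ≥ 1` and let the degrees of all irreducible
factors over `κ` of the reduction be divisible by `d` if `d` is odd and by `2d` if `d` is even.  Let
`a ∈ k` have a valuation that is not divisible by `d` and let `d ∣ n`.  Then the curve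
`a yⁿ = ∏ f_i(x)^(e_i)` has no point over `k` and there is no section of `Gal(M/F) → G_k` for any
extension `M` of its function field `F` that contains the algebraic closure of `k` and the roots of
order `d` of the functions `(x - θ)/(x - θ')`.  If the `e_i` are prime to `d`, the fundamental groups
of the curve and of all its open subcurves have no section.  (2) Let `K` be any field of
characteristic zero and `k = K(t)` with `t` transcendental over `K`.  The same is true if the
`f_i ∈ K[x]` have a separable product whose irreducible factors have degrees divisible by `d` or `2d`,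
and the order of `a ∈ k` at `t = 0` is not divisible by `d`.  (3) Let `K` and `k` be as in (2), let
`ℓ` be an odd prime number, let `f ∈ K[x]` be separable, let the order of `a ∈ k` at `t = 0` be prime
to `ℓ`, and let `n ≥ 1` be divisible by `ℓ`.  If the curve `a yⁿ = f(x)` has a section over one of its
open subcurves, or of `Gal(M/F) → G_k` for one of the `M` as in (1) with `d = ℓ`, then it has a point
over an extension of `k` of a degree prime to `ℓ`. -/
theorem result : LocalStatement.{u, v, w, x} ∧ FunctionFieldStatement.{u, v, w, x} ∧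
    PrimeToStatement.{u, v, w, x} :=
  ⟨fun k _ _ A _ κ _ ρ hρ I _ f e hlc hs d hd hf a ha n hdn =>
    general k A κ ρ hρ I f e hlc hs d hd hf a ha n hdn,
  fun K _ _ k _ _ t ht htop I _ f e hs d hd hf a ha n hdn =>
    rational K k t ht htop I f e hs d hd hf a ha n hdn,
  fun K _ _ k _ _ t ht htop f hs ℓ hℓ hodd a ha n hn hℓn h =>
    prime_to K k t ht htop f hs ℓ hℓ hodd a ha n hn hℓn h⟩

end Pool.Agent.Results.MP_8312c9_nt.FactorDegrees

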